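import Pool.Agent.N809.M17.Eig
import Pool.Agent.N402.Dim.D17

/-!
Modularity of the curve `17a1`: the eigenform and the parametrization, unconditionally.
-/

set_option autoImplicit false

open UpperHalfPlane MatrixGroups CongruenceSubgroup

namespace Pool.Agent.N809.M17

open Pool.Agent.N974
open Pool.Agent.W97.MT (ap)

/-- the form of level 17 is an eigenform with the eigenvalues of the curve `17a1` -/
theorem eigen17 : Gen.Eigen f17 (fun p => ap Gen.E17 p) :=
  eigen17_of fun g => by
    obtain ⟨z1, h1⟩ := f17_ne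
    exact Pool.Agent.N402.Dim.dim17 f17 g h1

/-- the modular parametrization of the curve `17a1` -/
theorem param17' : ∀ L : PeriodPair, L.g₂ = 11 / 4 → L.g₃ = 12015 / 216 → Gen.Param f17 L X0 :=
  param17

/-- modularity of the curve `17a1` -/
theorem mod17 : ∃ (f : CuspForm (Gamma0 17 : Subgroup (GL (Fin 2) ℝ)) 2) (X : ℂ → ℂ),
    Gen.Eigen f (fun p => ap Gen.E17 p) ∧
    ∀ L : PeriodPair, L.g₂ = 11 / 4 → L.g₃ = 12015 / 216 → Gen.Param f L X :=
  ⟨f17, X0, eigen17, param17⟩

end Pool.Agent.N809.M17
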