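import Pool.Agent.N809.M17.Rel

/-!
The differential of the modular curve of level 17.
-/

set_option autoImplicit false

open Filter Topology Finset

namespace Pool.Agent.N809.M17

open Complex (exp I)
open Pool.Agent.W97.TW
open Pool.Agent.W97.MT (qq qq_ne norm_qq norm_qq_lt Rep RepC QV iI iI_pos iI_eventually tendsto_qq
  mul_zero_or H_open)

lemma rd_all {g : ℤ} (hg : ¬ (17 : ℤ) ∣ g) {z : ℂ} (hz : 0 < z.im) : rd g z = 0 := by
  rcases rd_cases g hg with h | h
  · rw [(h z).1]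
    exact (rel_zero z hz).1
  · rw [(h z).1]
    exact (rel_zero z hz).2

lemma al_nine {g : ℤ} (hg : ¬ (17 : ℤ) ∣ g) {z : ℂ} (hz : 0 < z.im) :
    al (9 * g) z = 1 - al g z := by
  have h := rd_all hg hz
  unfold rd at h
  linear_combination h

lemma st {g : ℤ} (hg : ¬ (17 : ℤ) ∣ g) {z : ℂ} (hz : 0 < z.im) :
    al g z * (1 - al g z) * (al (3 * g) z * (1 - al (3 * g) z)) = -1 := by
  have h1 := al_prod hg hz
  have h2 := al_nine hg hz
  have h3 := al_nine (not_dvd_mul hg (k := 3) (by norm_num)) hz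
  rw [show (9 : ℤ) * (3 * g) = 27 * g by ring] at h3
  rw [h2, h3] at h1
  linear_combination h1

/-- the derivative of the relation -/
lemma st_deriv {g : ℤ} (hg : ¬ (17 : ℤ) ∣ g) {z : ℂ} (hz : 0 < z.im) :
    (2 * al g z - 1) * deriv (al g) z * (al (3 * g) z * (1 - al (3 * g) z)) +
      (al g z * (1 - al g z)) * ((2 * al (3 * g) z - 1) * deriv (al (3 * g)) z) = 0 := by
  have hg3 := not_dvd_mul hg (k := 3) (by norm_num)
  have h1 := (al_diff hg hz).hasDerivAt
  have h2 := (al_diff hg3 hz).hasDerivAt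
  have h3 := (h1.mul (h1.const_sub 1)).mul (h2.mul (h2.const_sub 1))
  have h4 : (fun w => al g w * (1 - al g w) * (al (3 * g) w * (1 - al (3 * g) w))) =ᶠ[𝓝 z]
      fun _ => -1 := by
    filter_upwards [H_open.mem_nhds hz] with w hw
    exact st hg hw
  have h5 := (hasDerivAt_const z (-1 : ℂ)).congr_of_eventuallyEq h4
  have h6 := h3.unique h5
  simp only [Pi.mul_apply] at h6
  linear_combination (-1 : ℂ) * h6

/-- the differential, up to a constant -/
noncomputable def Wg (g : ℤ) (z : ℂ) : ℂ :=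
  (2 * al g z - 1) * (al g z * (1 - al g z)) * deriv (al (3 * g)) z +
    4 * (2 * al (3 * g) z - 1) * deriv (al g) z

section alg

variable {u v u' v' : ℂ} (H1 : u * (1 - u) * (v * (1 - v)) = -1)
  (H2 : (2 * u - 1) * u' * (v * (1 - v)) + (u * (1 - u)) * ((2 * v - 1) * v') = 0)
include H1 H2

lemma alg_a : (2 * u - 1) * u' = (u * (1 - u)) ^ 2 * ((2 * v - 1) * v') := by
  linear_combination ((2 * u - 1) * u') * H1 - (u * (1 - u)) * H2

lemma alg_b : (2 * v - 1) * v' = (v * (1 - v)) ^ 2 * ((2 * u - 1) * u') := by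
  linear_combination ((2 * v - 1) * v') * H1 - (v * (1 - v)) * H2

lemma alg_R : ((2 * u - 1) * (u * (1 - u)) * v' + 4 * (2 * v - 1) * u') *
    ((2 * v - 1) * (u * (1 - u))) = 17 * u' := by
  have h := alg_a H1 H2
  linear_combination (-(2 * u - 1)) * h - 16 * u' * H1

lemma alg_P : ((2 * u - 1) * (u * (1 - u)) * v' + 4 * (2 * v - 1) * u') * (2 * u - 1) =
    17 * ((u * (1 - u)) * v') := by
  have h := alg_a H1 H2
  linear_combination (4 * (2 * v - 1)) * h - 16 * (u * (1 - u)) * v' * H1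

lemma alg_step : (2 * v - 1) * (v * (1 - v)) * (-u') + 4 * (2 * (1 - u) - 1) * v' =
    (2 * u - 1) * (u * (1 - u)) * v' + 4 * (2 * v - 1) * u' := by
  have ha := alg_a H1 H2
  have hb := alg_b H1 H2
  set D := ((2 * v - 1) * (v * (1 - v)) * (-u') + 4 * (2 * (1 - u) - 1) * v') -
    ((2 * u - 1) * (u * (1 - u)) * v' + 4 * (2 * v - 1) * u') with hD
  have hP : (2 * u - 1) * D = 0 := by
    rw [hD]
    linear_combination (-(2 * v - 1) * (v * (1 - v) + 4)) * ha +
      (v' * (15 * (u * (1 - u)) + 4 * (u * (1 - u) * (v * (1 - v)) - 1))) * H1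
  have hR : (2 * v - 1) * D = 0 := by
    rw [hD]
    linear_combination (-(2 * u - 1) * (u * (1 - u) + 4)) * hb +
      (u' * (15 * (v * (1 - v)) + 4 * (u * (1 - u) * (v * (1 - v)) - 1))) * H1
  have h17 : (17 : ℂ) * D = 0 := by
    linear_combination (2 * u - 1) * hP + (2 * v - 1) * (1 - (2 * u - 1) ^ 2) * hR +
      (16 * D) * H1
  have : D = 0 := by
    rcases mul_eq_zero.1 h17 with h | h
    · norm_num at h
    · exact h
  linear_combination this

end alg

lemma Wg_step {g : ℤ} (hg : ¬ (17 : ℤ) ∣ g) {z : ℂ} (hz : 0 < z.im) : Wg (3 * g) z = Wg g z := by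
  have h1 := alg_step (st hg hz) (st_deriv hg hz)
  have e : (3 : ℤ) * (3 * g) = 9 * g := by ring
  have hd : deriv (al (9 * g)) z = -deriv (al g) z := by
    have h4 : al (9 * g) =ᶠ[𝓝 z] fun w => 1 - al g w := by
      filter_upwards [H_open.mem_nhds hz] with w hw
      exact al_nine hg hw
    rw [h4.deriv_eq, deriv_const_sub]
  unfold Wg
  rw [e, hd, al_nine hg hz]
  exact h1

lemma Wg_congr {g g' : ℤ} (h : (17 : ℤ) ∣ g' - g) (z : ℂ) : Wg g' z = Wg g z := by
  have h1 : al g' = al g := funext fun w => al_congr h w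
  have h2 : al (3 * g') = al (3 * g) := funext fun w => al_congr (by
    have : 3 * g' - 3 * g = 3 * (g' - g) := by ring
    rw [this]
    exact dvd_mul_of_dvd_right h 3) w
  unfold Wg
  rw [h1, h2]

lemma Wg_all {a : ℤ} (ha : ¬ (17 : ℤ) ∣ a) {z : ℂ} (hz : 0 < z.im) : Wg a z = Wg 1 z := by
  have key : ∀ k : ℕ, Wg (3 ^ k) z = Wg 1 z := by
    intro k
    induction k with
    | zero => simp
    | succ k ih =>
      have hk : ¬ (17 : ℤ) ∣ 3 ^ k := by
        intro h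
        have hp : Prime (17 : ℤ) := by
          rw [Int.prime_iff_natAbs_prime]
          norm_num
        have := hp.dvd_of_dvd_pow h
        norm_num at this
      have e : (3 : ℤ) ^ (k + 1) = 3 * 3 ^ k := by ring
      rw [e, Wg_step hk hz, ih]
  have hA : ∀ a : ZMod 17, a ≠ 0 → ∃ k : Fin 16, a = 3 ^ k.val := by decide
  have ha' : ((a : ℤ) : ZMod 17) ≠ 0 := fun h => ha ((ZMod.intCast_zmod_eq_zero_iff_dvd a 17).1 h)
  obtain ⟨k, hk⟩ := hA (a : ZMod 17) ha'
  have hd : (17 : ℤ) ∣ a - 3 ^ k.val := by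
    have : ((a - 3 ^ k.val : ℤ) : ZMod 17) = 0 := by push_cast; rw [hk, sub_self]
    exact (ZMod.intCast_zmod_eq_zero_iff_dvd _ 17).1 this
  rw [Wg_congr hd, key]

lemma gam_pos {a b c d : ℤ} (h : a * d - b * (17 * c) = 1) {z : ℂ} (hz : 0 < z.im) :
    0 < ((a * z + b) / (17 * c * z + d) : ℂ).im ∧ (17 * c * z + d : ℂ) ≠ 0 := by
  have := im_moebius h hz
  push_cast at this
  exact this

lemma hasDerivAt_gamma {a b c d : ℤ} (h : a * d - b * (17 * c) = 1) {z : ℂ} (hz : 0 < z.im) :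
    HasDerivAt (fun z : ℂ => (a * z + b) / (17 * c * z + d)) (((17 * c * z + d) ^ 2)⁻¹) z := by
  have h0 := (gam_pos h hz).2
  have h1 : HasDerivAt (fun w : ℂ => (a : ℂ) * w + b) a z := by
    simpa using ((hasDerivAt_id z).const_mul (a : ℂ)).add_const (b : ℂ)
  have h2 : HasDerivAt (fun w : ℂ => 17 * (c : ℂ) * w + d) (17 * c) z := by
    simpa using ((hasDerivAt_id z).const_mul (17 * (c : ℂ))).add_const (d : ℂ)
  refine (h1.div h2 h0).congr_deriv ?_
  have h3 : (a : ℂ) * d - b * (17 * c) = 1 := by exact_mod_cast h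
  field_simp
  linear_combination h3

lemma deriv_al_gamma {a b c d : ℤ} (h : a * d - b * (17 * c) = 1) {g : ℤ}
    (hg : ¬ (17 : ℤ) ∣ g) {z : ℂ} (hz : 0 < z.im) :
    deriv (al g) ((a * z + b) / (17 * c * z + d)) = (17 * c * z + d) ^ 2 * deriv (al (a * g)) z := by
  obtain ⟨hm, h0⟩ := gam_pos h hz
  have h1 := (al_diff hg hm).hasDerivAt.comp z (hasDerivAt_gamma h hz)
  have h2 : al g ∘ (fun z : ℂ => (a * z + b) / (17 * c * z + d)) =ᶠ[𝓝 z] al (a * g) := by
    filter_upwards [H_open.mem_nhds hz] with w hw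
    exact al_gamma h g hw
  have h3 := (h1.congr_of_eventuallyEq h2.symm).deriv
  rw [h3, mul_comm (deriv (al g) _), ← mul_assoc, mul_inv_cancel₀ (pow_ne_zero 2 h0), one_mul]

/-- the form of weight two -/
noncomputable def f0 (z : ℂ) : ℂ := (17 * (2 * Real.pi * I))⁻¹ * Wg 1 z

lemma f0_gamma {a b c d : ℤ} (h : a * d - b * (17 * c) = 1) {z : ℂ} (hz : 0 < z.im) :
    f0 ((a * z + b) / (17 * c * z + d)) = (17 * c * z + d) ^ 2 * f0 z := by
  have n1 : ¬ (17 : ℤ) ∣ 1 := by norm_num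
  have n3 : ¬ (17 : ℤ) ∣ 3 * 1 := by norm_num
  have h1 : Wg 1 ((a * z + b) / (17 * c * z + d)) = (17 * c * z + d) ^ 2 * Wg a z := by
    unfold Wg
    rw [al_gamma h 1 hz, al_gamma h (3 * 1) hz, deriv_al_gamma h n1 hz, deriv_al_gamma h n3 hz,
      mul_one, mul_one, mul_comm a 3]
    ring
  unfold f0
  rw [h1, Wg_all (not_dvd_of_det h) hz]
  ring

lemma tpi_ne : (2 * (Real.pi : ℂ) * I) ≠ 0 := Complex.two_pi_I_ne_zero

lemma f0_R {z : ℂ} (hz : 0 < z.im) :
    2 * Real.pi * I * f0 z * ((2 * al 3 z - 1) * (al 1 z * (1 - al 1 z))) = deriv (al 1) z := by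
  have n1 : ¬ (17 : ℤ) ∣ 1 := by norm_num
  have h := alg_R (st n1 hz) (st_deriv n1 hz)
  have hp := tpi_ne
  unfold f0 Wg
  rw [mul_inv]
  rw [mul_one] at h ⊢
  have e : 2 * (Real.pi : ℂ) * I * (2 * Real.pi * I)⁻¹ = 1 := mul_inv_cancel₀ hp
  linear_combination (17⁻¹ : ℂ) * h + ((17⁻¹ : ℂ) * ((2 * al 1 z - 1) * (al 1 z * (1 - al 1 z)) *
    deriv (al 3) z + 4 * (2 * al 3 z - 1) * deriv (al 1) z) *
    ((2 * al 3 z - 1) * (al 1 z * (1 - al 1 z)))) * e

lemma f0_P {z : ℂ} (hz : 0 < z.im) :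
    2 * Real.pi * I * f0 z * (2 * al 1 z - 1) = (al 1 z * (1 - al 1 z)) * deriv (al 3) z := by
  have n1 : ¬ (17 : ℤ) ∣ 1 := by norm_num
  have h := alg_P (st n1 hz) (st_deriv n1 hz)
  have hp := tpi_ne
  unfold f0 Wg
  rw [mul_inv]
  rw [mul_one] at h ⊢
  have e : 2 * (Real.pi : ℂ) * I * (2 * Real.pi * I)⁻¹ = 1 := mul_inv_cancel₀ hp
  linear_combination (17⁻¹ : ℂ) * h + ((17⁻¹ : ℂ) * ((2 * al 1 z - 1) * (al 1 z * (1 - al 1 z)) *
    deriv (al 3) z + 4 * (2 * al 3 z - 1) * deriv (al 1) z) * (2 * al 1 z - 1)) * e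

/-- the Weierstrass coordinate -/
noncomputable def X0 (z : ℂ) : ℂ :=
  -(al 1 z * (1 - al 1 z) + al 3 z * (1 - al 3 z)) - 5 / 4

lemma X0_diff {z : ℂ} (hz : 0 < z.im) : DifferentiableAt ℂ X0 z := by
  have h1 := al_diff (g := 1) (by norm_num) hz
  have h3 := al_diff (g := 3) (by norm_num) hz
  unfold X0
  fun_prop

/-- the Weierstrass equation -/
theorem X0_ode {z : ℂ} (hz : 0 < z.im) : deriv X0 z ^ 2 =
    (2 * Real.pi * I * f0 z) ^ 2 * (4 * X0 z ^ 3 - 11 / 4 * X0 z - 12015 / 216) := by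
  have n1 : ¬ (17 : ℤ) ∣ 1 := by norm_num
  have h1 := (al_diff (g := 1) (by norm_num) hz).hasDerivAt
  have h3 := (al_diff (g := 3) (by norm_num) hz).hasDerivAt
  have hX : HasDerivAt X0 ((2 * al 1 z - 1) * deriv (al 1) z + (2 * al 3 z - 1) * deriv (al 3) z) z := by
    have h4 := (((h1.mul (h1.const_sub 1)).add (h3.mul (h3.const_sub 1))).neg).sub_const (5 / 4)
    refine h4.congr_deriv ?_
    ring
  have hR := f0_R hz
  have hP := f0_P hz
  have hs := st n1 hz
  rw [mul_one] at hs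
  rw [hX.deriv]
  unfold X0
  set u := al 1 z
  set v := al 3 z
  set F := 2 * Real.pi * I * f0 z
  set v' := deriv (al 3) z
  have hv : v' = -(F * (2 * u - 1) * (v * (1 - v))) := by
    linear_combination (v * (1 - v)) * hP + v' * hs
  rw [← hR, hv]
  have e1 : (2 * u - 1) * (F * ((2 * v - 1) * (u * (1 - u)))) +
      (2 * v - 1) * -(F * (2 * u - 1) * (v * (1 - v))) =
      F * ((2 * u - 1) * (2 * v - 1) * (u * (1 - u) - v * (1 - v))) := by ring
  rw [e1, mul_pow]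
  congr 1
  set s := u * (1 - u) with hsd
  set t := v * (1 - v) with htd
  have e2 : (2 * u - 1) ^ 2 = 1 - 4 * s := by rw [hsd]; ring
  have e3 : (2 * v - 1) ^ 2 = 1 - 4 * t := by rw [htd]; ring
  have e4 : ((2 * u - 1) * (2 * v - 1) * (s - t)) ^ 2 =
      (2 * u - 1) ^ 2 * (2 * v - 1) ^ 2 * (s - t) ^ 2 := by ring
  rw [e4, e2, e3]
  linear_combination (16 * ((s + t) ^ 2 + 4 - 4 * (s * t + 1)) + 60 + 16 * (s + t)) * hs

end Pool.Agent.N809.M17
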