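import Pool.Agent.N809.M17.Param
import Pool.Agent.N816.M17.E17
import Pool.Agent.N974.MF.Coef

/-!
Coefficients of the form of level 17 modulo primes.
-/

set_option autoImplicit false

open UpperHalfPlane hiding I
open MatrixGroups CongruenceSubgroup Filter Topology
open scoped ModularForm Pointwise

namespace Pool.Agent.N809.M17

open Complex (exp I)
open Pool.Agent.W97.TW
open Pool.Agent.W97.MT (qq qq_ne norm_qq norm_qq_lt RepC QV iI iI_pos iI_eventually tendsto_qq
  mul_zero_or H_open hasDerivAt_qq exists_qq qParam_one num ap affCount)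

lemma coeff_f17 (n : ℕ) : (qExpansion 1 f17).coeff n =
    ((PowerSeries.coeff n (PowerSeries.X * PH) : ℤ) : ℂ) := by
  have h1 := ModularFormClass.qExpansion_coeff_unique
    (Γ := (Gamma0 17 : Subgroup (GL (Fin 2) ℝ))) (k := 2)
    (c := fun n => ((PowerSeries.coeff n (PowerSeries.X * PH) : ℤ) : ℂ)) one_pos one_mem0
    (f := f17) (fun τ => by
      have h2 : HasSum (fun n : ℕ => PowerSeries.coeff n (PowerSeries.map (Int.castRingHom ℂ)
        (PowerSeries.X * PH)) * qq τ ^ n) (qq τ * phi (qq τ)) :=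
          (Pool.Agent.W97.MT.Rep.X.mul rep_phi) (qq τ) (norm_qq_lt τ.im_pos)
      simp only [PowerSeries.coeff_map, eq_intCast] at h2
      rw [f17_apply, f0_q τ.im_pos]
      have h3 : Function.Periodic.qParam 1 (τ : ℂ) = qq τ := qParam_one τ
      rw [h3]
      simpa only [smul_eq_mul] using h2) n
  exact h1.symm

lemma real17 : Pool.Agent.N974.Gen.RealCoef f17 := by
  intro n
  rw [coeff_f17]
  exact Complex.intCast_im _

/-- the integral series of the coordinate -/
noncomputable def XI : PowerSeries ℤ :=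
  P3 * P27 - PowerSeries.X ^ 4 * (P1 * P9) - PowerSeries.X ^ 2

/-- the coordinate times `q²` -/
noncomputable def xiI (q : ℂ) : ℂ := x3 q * x27 q - q ^ 4 * (x1 q * x9 q) - q ^ 2

lemma rep_xi : Pool.Agent.W97.MT.Rep xiI XI :=
  ((rep3.mul rep27).sub ((Pool.Agent.W97.MT.Rep.X.pow 4).mul (rep1.mul rep9))).sub
    (Pool.Agent.W97.MT.Rep.X.pow 2)

lemma XI_const : PowerSeries.constantCoeff XI = 1 := by
  unfold XI
  simp [P3_const, P27_const]

lemma PH_const : PowerSeries.constantCoeff PH = 1 := by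
  unfold PH
  simp [P1_const, P3_const, P9_const]

lemma X0_int {z : ℂ} (hz : 0 < z.im) : X0 z = xiI (qq z) / qq z ^ 2 - 1 / 4 := by
  rw [X0_q hz]
  unfold xiq xiI
  have hq := qq_ne z
  field_simp
  ring

lemma deriv_X0 {z : ℂ} (hz : 0 < z.im) : deriv X0 z =
    2 * Real.pi * I * ((qq z * deriv xiI (qq z) - 2 * xiI (qq z)) / qq z ^ 2) := by
  have h1 := (((rep_comp rep_xi hz).div ((hasDerivAt_qq z).pow 2)
    (pow_ne_zero 2 (qq_ne z)))).sub_const (1 / 4)
  have h2 : X0 =ᶠ[𝓝 z] fun z => ((fun z => xiI (qq z)) / (qq ^ 2)) z - 1 / 4 := by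
    filter_upwards [H_open.mem_nhds hz] with w hw
    exact X0_int hw
  rw [(h1.congr_of_eventuallyEq h2).deriv]
  have hq := qq_ne z
  simp only [Pi.pow_apply]
  field_simp
  push_cast
  ring

lemma ode_q {q : ℂ} (hq : ‖q‖ < 1) : (q * deriv xiI q - 2 * xiI q) ^ 2 =
    phi q ^ 2 * (4 * xiI q ^ 3 - 3 * q ^ 2 * xiI q ^ 2 - 2 * q ^ 4 * xiI q - 55 * q ^ 6) := by
  by_cases h0 : q = 0
  · subst h0
    rw [phi_zero]
    have : xiI 0 = 1 := by
      unfold xiI
      rw [x3_zero, x27_zero]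
      norm_num
    rw [this]
    norm_num
  · obtain ⟨z, hz, rfl⟩ := exists_qq hq h0
    have h := X0_ode hz
    rw [deriv_X0 hz, f0_q hz, X0_int hz] at h
    have hp := tpi_ne
    have h2 : ((2 * Real.pi * I) ^ 2 * (qq z ^ 4)⁻¹) * (qq z * deriv xiI (qq z) - 2 * xiI (qq z)) ^ 2 =
        ((2 * Real.pi * I) ^ 2 * (qq z ^ 4)⁻¹) * (phi (qq z) ^ 2 * (4 * xiI (qq z) ^ 3 -
          3 * qq z ^ 2 * xiI (qq z) ^ 2 - 2 * qq z ^ 4 * xiI (qq z) - 55 * qq z ^ 6)) := by
      have e1 : (2 * Real.pi * I * ((qq z * deriv xiI (qq z) - 2 * xiI (qq z)) / qq z ^ 2)) ^ 2 =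
          ((2 * Real.pi * I) ^ 2 * (qq z ^ 4)⁻¹) *
            (qq z * deriv xiI (qq z) - 2 * xiI (qq z)) ^ 2 := by
        field_simp
      rw [← e1, h]
      field_simp
      ring
    exact mul_left_cancel₀ (mul_ne_zero (pow_ne_zero _ hp) (inv_ne_zero (pow_ne_zero _ h0))) h2

/-- the formal identities -/
lemma formal : ∃ S : PowerSeries ℤ, PowerSeries.constantCoeff S = -2 ∧
    PowerSeries.X * PowerSeries.derivative ℤ XI - 2 * XI = PH * S ∧
    S ^ 2 = 4 * XI ^ 3 - 3 * PowerSeries.X ^ 2 * XI ^ 2 - 2 * PowerSeries.X ^ 4 * XI -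
      55 * PowerSeries.X ^ 6 := by
  have hu : IsUnit PH := by
    rw [PowerSeries.isUnit_iff_constantCoeff, PH_const]; exact isUnit_one
  obtain ⟨V, hV⟩ := hu.exists_right_inv
  have hS : PH * (V * (PowerSeries.X * PowerSeries.derivative ℤ XI - 2 * XI)) =
      PowerSeries.X * PowerSeries.derivative ℤ XI - 2 * XI := by
    rw [← mul_assoc, hV, one_mul]
  refine ⟨V * (PowerSeries.X * PowerSeries.derivative ℤ XI - 2 * XI), ?_, hS.symm, ?_⟩
  · have h1 := congrArg PowerSeries.constantCoeff hV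
    rw [map_mul, PH_const, one_mul, map_one] at h1
    rw [map_mul, map_sub, map_mul, map_mul, h1, PowerSeries.constantCoeff_X, map_ofNat, XI_const]
    ring
  · set S := V * (PowerSeries.X * PowerSeries.derivative ℤ XI - 2 * XI) with hSd
    have key : PH ^ 2 * S ^ 2 = PH ^ 2 * (4 * XI ^ 3 - 3 * PowerSeries.X ^ 2 * XI ^ 2 -
        2 * PowerSeries.X ^ 4 * XI - 55 * PowerSeries.X ^ 6) := by
      have e1 : PH ^ 2 * S ^ 2 = (PowerSeries.X * PowerSeries.derivative ℤ XI - 2 * XI) ^ 2 := by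
        rw [← hS]; ring
      rw [e1]
      rw [num 2, num 4, num 3, num 55]
      have rΞ := rep_xi
      have rP := rep_phi
      refine ((rΞ.theta.sub ((Pool.Agent.W97.MT.Rep.C 2).mul rΞ)).pow 2).unique (((rP.pow 2).mul
        (((((Pool.Agent.W97.MT.Rep.C 4).mul (rΞ.pow 3)).sub (((Pool.Agent.W97.MT.Rep.C 3).mul
        (Pool.Agent.W97.MT.Rep.X.pow 2)).mul (rΞ.pow 2))).sub (((Pool.Agent.W97.MT.Rep.C 2).mul
        (Pool.Agent.W97.MT.Rep.X.pow 4)).mul rΞ)).sub ((Pool.Agent.W97.MT.Rep.C 55).mul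
        (Pool.Agent.W97.MT.Rep.X.pow 6)))).congr fun q hq1 => ?_)
      push_cast
      exact ode_q hq1
    have hP2 : PH ^ 2 ≠ 0 := by
      intro h
      have := congrArg PowerSeries.constantCoeff h
      rw [map_pow, PH_const] at this
      norm_num at this
    exact mul_left_cancel₀ hP2 key

/-- the coefficient modulo `p` -/
lemma coeff_mod {p : ℕ} (hp : p.Prime) (hp2 : p ≠ 2) :
    ((PowerSeries.coeff (p - 1) PH : ℤ) : ZMod p) = (ap Pool.Agent.N816.M17.E17 p : ZMod p) := by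
  have : Fact p.Prime := ⟨hp⟩
  obtain ⟨S, cS, h1, h2⟩ := formal
  set m := PowerSeries.map (Int.castRingHom (ZMod p)) with hm
  have hX : m PowerSeries.X = PowerSeries.X := PowerSeries.map_X _
  have hd : m (PowerSeries.derivative ℤ XI) = PowerSeries.derivative (ZMod p) (m XI) := by
    ext n
    simp [hm, PowerSeries.coeff_derivative]
  have h3 := congrArg m h1
  have h4 := congrArg m h2
  simp only [map_sub, map_mul, map_pow, hX, hd, map_ofNat] at h3 h4
  have hcc : ∀ V : PowerSeries ℤ, PowerSeries.constantCoeff (m V) =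
      ((PowerSeries.constantCoeff V : ℤ) : ZMod p) := by
    intro V
    rw [← PowerSeries.coeff_zero_eq_constantCoeff_apply, ← PowerSeries.coeff_zero_eq_constantCoeff_apply,
      hm, PowerSeries.coeff_map]
    simp
  have h5 := Pool.Agent.N816.M17.s_hasse17 p hp2 (m PH) (m XI) (m S)
    (by rw [hcc, XI_const]; simp)
    (by rw [hcc, cS]; simp)
    h3 h4
  rw [← h5, hm, PowerSeries.coeff_map]
  simp

end Pool.Agent.N809.M17
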