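import Pool.Agent.N809.M17.Coef

/-!
The value of the coordinate at the cusp zero.
-/

set_option autoImplicit false

open Filter Topology

namespace Pool.Agent.N809.M17

open Complex (exp I)
open Pool.Agent.W97.TW
open Pool.Agent.W97.MT (qq QV iI iI_pos iI_eventually)
open Pool.Agent.N974
open Pool.Agent.N974.MF (Hor hor_pos hor_gt hor_neBot)

/-- a primitive root of unity of order 34 -/
noncomputable def w34 : ℂ := exp (Real.pi * I / 17)

lemma w34_ne : w34 ≠ 0 := Complex.exp_ne_zero _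

lemma w34_pow : w34 ^ 17 = -1 := by
  unfold w34
  rw [← Complex.exp_nat_mul]
  have : ((17 : ℕ) : ℂ) * (Real.pi * I / 17) = Real.pi * I := by
    push_cast
    ring
  rw [this, Complex.exp_pi_mul_I]

lemma va_eq (g : ℕ) : va g = ((w34 ^ 2) ^ g - 1) * (w34 ^ g)⁻¹ := by
  have h1 : w34 ^ g = exp (Real.pi * I * (g / 17)) := by
    unfold w34
    rw [← Complex.exp_nat_mul]
    congr 1
    ring
  have h2 : exp (2 * Real.pi * I * (-(g / 17))) = ((w34 ^ g) ^ 2)⁻¹ := by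
    rw [h1, ← Complex.exp_nat_mul, ← Complex.exp_neg]
    congr 1
    push_cast
    ring
  have h3 : va (g : ℤ) = exp (Real.pi * I * (g / 17)) * (1 - exp (2 * Real.pi * I * (-(g / 17)))) := by
    unfold va
    push_cast
    rfl
  have h4 : (w34 ^ 2) ^ g = (w34 ^ g) ^ 2 := by
    rw [← pow_mul, ← pow_mul, mul_comm]
  rw [h3, h2, ← h1, h4]
  have h5 := pow_ne_zero g w34_ne
  generalize w34 ^ g = x at h5 ⊢
  field_simp

lemma geom_u : ∑ k ∈ Finset.range 17, (w34 ^ 2) ^ k = 0 := by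
  have h1 := mul_neg_geom_sum (w34 ^ 2) 17
  have h2 : (w34 ^ 2) ^ 17 = 1 := by
    rw [← pow_mul, mul_comm, pow_mul, w34_pow]
    norm_num
  rw [h2, sub_self] at h1
  rcases mul_eq_zero.1 h1 with h3 | h3
  · exfalso
    have h4 : w34 ^ 2 = 1 := (sub_eq_zero.1 h3).symm
    have h5 : w34 ^ 17 = w34 := by
      have : w34 ^ 17 = (w34 ^ 2) ^ 8 * w34 := by ring
      rw [this, h4]
      ring
    rw [w34_pow] at h5
    have h6 : exp (Real.pi * I / 17) = exp (Real.pi * I) := by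
      rw [Complex.exp_pi_mul_I]
      exact h5.symm
    rw [Complex.exp_eq_exp_iff_exists_int] at h6
    obtain ⟨n, hn⟩ := h6
    have hp : ((Real.pi : ℂ) * I) ≠ 0 := by simp [Real.pi_ne_zero]
    have h7 : (1 : ℂ) / 17 = 1 + 2 * n := by
      apply mul_left_cancel₀ hp
      linear_combination hn
    have h8 : (1 : ℂ) = ((17 * (1 + 2 * n) : ℤ) : ℂ) := by
      push_cast
      linear_combination (17 : ℂ) * h7
    have h9 : (1 : ℤ) = 17 * (1 + 2 * n) := by exact_mod_cast h8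
    omega
  · exact h3

/-- the quadratic relation between the products over residues and non-residues -/
lemma gauss17 : (va 1 * va 2 * va 4 * va 8) ^ 2 - (va 3 * va 5 * va 6 * va 7) ^ 2 +
    8 * (va 1 * va 2 * va 4 * va 8) * (va 3 * va 5 * va 6 * va 7) = 0 := by
  have e : ∀ g : ℕ, va ((g : ℕ) : ℤ) = ((w34 ^ 2) ^ g - 1) * (w34 ^ g)⁻¹ := va_eq
  have e1 := e 1
  have e2 := e 2
  have e3 := e 3
  have e4 := e 4
  have e5 := e 5
  have e6 := e 6
  have e7 := e 7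
  have e8 := e 8
  push_cast at e1 e2 e3 e4 e5 e6 e7 e8
  have hg := geom_u
  simp only [Finset.sum_range_succ, Finset.sum_range_zero] at hg
  rw [e1, e2, e3, e4, e5, e6, e7, e8]
  have hw := w34_ne
  set w := w34
  have key : ∀ u : ℂ, u = w ^ 2 → u ^ 6 * ((u - 1) * (u ^ 2 - 1) * (u ^ 4 - 1) * (u ^ 8 - 1)) ^ 2 -
      ((u ^ 3 - 1) * (u ^ 5 - 1) * (u ^ 6 - 1) * (u ^ 7 - 1)) ^ 2 +
      8 * u ^ 3 * ((u - 1) * (u ^ 2 - 1) * (u ^ 4 - 1) * (u ^ 8 - 1)) *
        ((u ^ 3 - 1) * (u ^ 5 - 1) * (u ^ 6 - 1) * (u ^ 7 - 1)) = 0 := by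
    intro u hu
    rw [← hu] at hg
    linear_combination ((-1) * u ^ 0 + (1) * u ^ 1 + (10) * u ^ 3 + (-18) * u ^ 4 + (2) * u ^ 5 +
      (8) * u ^ 6 + (-2) * u ^ 7 + (3) * u ^ 8 + (-3) * u ^ 9 + (8) * u ^ 12 + (-16) * u ^ 13 +
      (8) * u ^ 14 + (-3) * u ^ 17 + (3) * u ^ 18 + (-2) * u ^ 19 + (8) * u ^ 20 + (2) * u ^ 21 +
      (-18) * u ^ 22 + (10) * u ^ 23 + (1) * u ^ 25 + (-1) * u ^ 26) * hg
  have hk := key (w ^ 2) rfl
  have e9 : (((w ^ 2) ^ 1 - 1) * (w ^ 1)⁻¹ * (((w ^ 2) ^ 2 - 1) * (w ^ 2)⁻¹) *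
      (((w ^ 2) ^ 4 - 1) * (w ^ 4)⁻¹) * (((w ^ 2) ^ 8 - 1) * (w ^ 8)⁻¹)) =
      (w ^ 15)⁻¹ * ((w ^ 2 - 1) * ((w ^ 2) ^ 2 - 1) * ((w ^ 2) ^ 4 - 1) * ((w ^ 2) ^ 8 - 1)) := by
    field_simp
  have e10 : (((w ^ 2) ^ 3 - 1) * (w ^ 3)⁻¹ * (((w ^ 2) ^ 5 - 1) * (w ^ 5)⁻¹) *
      (((w ^ 2) ^ 6 - 1) * (w ^ 6)⁻¹) * (((w ^ 2) ^ 7 - 1) * (w ^ 7)⁻¹)) =
      (w ^ 21)⁻¹ * (((w ^ 2) ^ 3 - 1) * ((w ^ 2) ^ 5 - 1) * ((w ^ 2) ^ 6 - 1) *
        ((w ^ 2) ^ 7 - 1)) := by
    field_simp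
  rw [e9, e10]
  generalize ((w ^ 2 - 1) * ((w ^ 2) ^ 2 - 1) * ((w ^ 2) ^ 4 - 1) * ((w ^ 2) ^ 8 - 1)) = A at hk ⊢
  generalize (((w ^ 2) ^ 3 - 1) * ((w ^ 2) ^ 5 - 1) * ((w ^ 2) ^ 6 - 1) * ((w ^ 2) ^ 7 - 1)) = B
    at hk ⊢
  have e11 : ((w ^ 15)⁻¹ * A) ^ 2 - ((w ^ 21)⁻¹ * B) ^ 2 + 8 * ((w ^ 15)⁻¹ * A) *
      ((w ^ 21)⁻¹ * B) = (w ^ 42)⁻¹ * ((w ^ 2) ^ 6 * A ^ 2 - B ^ 2 + 8 * (w ^ 2) ^ 3 * A * B) := by
    field_simp
  rw [e11, hk, mul_zero]

lemma va_add (g : ℤ) : va (g + 17) = -va g := by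
  unfold va
  have e1 : (((g + 17 : ℤ) : ℂ) / 17) = (g : ℂ) / 17 + 1 := by
    push_cast
    ring
  have e2 : exp (Real.pi * I * ((g : ℂ) / 17 + 1)) = -exp (Real.pi * I * (g / 17)) := by
    rw [mul_add, Complex.exp_add, mul_one, Complex.exp_pi_mul_I]
    ring
  have e3 : exp (2 * Real.pi * I * (-((g : ℂ) / 17 + 1))) = exp (2 * Real.pi * I * (-(g / 17))) := by
    have : 2 * (Real.pi : ℂ) * I * (-((g : ℂ) / 17 + 1)) =
        2 * Real.pi * I * (-(g / 17)) + ((-1 : ℤ) : ℂ) * (2 * Real.pi * I) := by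
      push_cast
      ring
    rw [this, Complex.exp_add, Complex.exp_int_mul_two_pi_mul_I, mul_one]
  rw [e1, e2, e3]
  ring

lemma va_neg (g : ℤ) : va (-g) = -va g := by
  unfold va
  have e1 : (((-g : ℤ) : ℂ) / 17) = -((g : ℂ) / 17) := by
    push_cast
    ring
  rw [e1]
  generalize (g : ℂ) / 17 = x
  have e2 : exp (Real.pi * I * (-x)) * exp (2 * Real.pi * I * (-(-x))) = exp (Real.pi * I * x) := by
    rw [← Complex.exp_add]
    congr 1
    ring
  have e3 : exp (Real.pi * I * x) * exp (2 * Real.pi * I * (-x)) = exp (Real.pi * I * (-x)) := by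
    rw [← Complex.exp_add]
    congr 1
    ring
  linear_combination (-1 : ℂ) * e2 - e3

lemma v0_rel {g : ℤ} (hg : ¬ (17 : ℤ) ∣ g) : v0 (9 * g) = 1 - v0 g := by
  have h1 := al_lim (not_dvd_mul hg (k := 9) (by norm_num))
  have h2 := (al_lim hg).const_sub 1
  refine tendsto_nhds_unique h1 (h2.congr' (iI_pos.mono fun z hz => ?_))
  change 1 - al g (-1 / (17 * z)) = al (9 * g) (-1 / (17 * z))
  rw [al_nine hg (W_pos hz).1]

/-- the value of the coordinate at the cusp zero -/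
lemma X0_W : Tendsto (fun z : ℂ => X0 (-1 / (17 * z))) iI (𝓝 (27 / 4)) := by
  have n1 : ¬ (17 : ℤ) ∣ 1 := by norm_num
  have n3 : ¬ (17 : ℤ) ∣ 3 := by norm_num
  have h1 := al_lim n1
  have h3 := al_lim n3
  have hX := ((((h1.mul (h1.const_sub 1)).add (h3.mul (h3.const_sub 1))).neg).sub_const (5 / 4))
  have hval : -(v0 1 * (1 - v0 1) + v0 3 * (1 - v0 3)) - 5 / 4 = 27 / 4 := by
    have r1 := v0_rel n1
    have r3 := v0_rel n3
    rw [← r1, ← r3]
    norm_num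
    unfold v0
    have a : va (4 * 9) = va 2 := by
      rw [show (4 * 9 : ℤ) = (2 + 17) + 17 by norm_num, va_add, va_add, neg_neg]
    have b : va (6 * 9) = -va 3 := by
      rw [show (6 * 9 : ℤ) = ((3 + 17) + 17) + 17 by norm_num, va_add, va_add, va_add, neg_neg]
    have c : va (7 * 9) = -va 5 := by
      rw [show (7 * 9 : ℤ) = (((-5 + 17) + 17) + 17) + 17 by norm_num, va_add, va_add, va_add,
        va_add, va_neg, neg_neg, neg_neg]
    have d : va 9 = va 8 := by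
      rw [show (9 : ℤ) = -8 + 17 by norm_num, va_add, va_neg, neg_neg]
    have a3 : va (4 * 3) = va 5 := by
      rw [show (4 * 3 : ℤ) = -5 + 17 by norm_num, va_add, va_neg, neg_neg]
    have b3 : va (6 * 3) = -va 1 := by
      rw [show (6 * 3 : ℤ) = 1 + 17 by norm_num, va_add]
    have c3 : va (7 * 3) = -va 4 := by
      rw [show (7 * 3 : ℤ) = 4 + 17 by norm_num, va_add]
    have d27 : va 27 = -va 7 := by
      rw [show (27 : ℤ) = (-7 + 17) + 17 by norm_num, va_add, va_add, va_neg, neg_neg]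
    have a27 : va (4 * 27) = va 6 := by
      rw [show (4 * 27 : ℤ) = (((((6 + 17) + 17) + 17) + 17) + 17) + 17 by norm_num, va_add, va_add,
        va_add, va_add, va_add, va_add]
      simp only [neg_neg]
    have b27 : va (6 * 27) = -va 8 := by
      rw [show (6 * 27 : ℤ) = (((((((((-8 + 17) + 17) + 17) + 17) + 17) + 17) + 17) + 17) + 17) + 17
        by norm_num, va_add, va_add, va_add, va_add, va_add, va_add, va_add, va_add, va_add, va_add,
        va_neg]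
      simp only [neg_neg]
    have c27 : va (7 * 27) = -va 2 := by
      rw [show (7 * 27 : ℤ) = ((((((((((2 + 17) + 17) + 17) + 17) + 17) + 17) + 17) + 17) + 17) +
        17) + 17 by norm_num, va_add, va_add, va_add, va_add, va_add, va_add, va_add, va_add,
        va_add, va_add, va_add]
      simp only [neg_neg]
    have m1 : ((4 : ℤ) * 1) = 4 := by norm_num
    have m2 : ((6 : ℤ) * 1) = 6 := by norm_num
    have m3 : ((7 : ℤ) * 1) = 7 := by norm_num
    rw [a, b, c, d, a3, b3, c3, d27, a27, b27, c27, m1, m2, m3]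
    have z1 : va 1 ≠ 0 := va_ne (by norm_num)
    have z2 : va 2 ≠ 0 := va_ne (by norm_num)
    have z3 : va 3 ≠ 0 := va_ne (by norm_num)
    have z4 : va 4 ≠ 0 := va_ne (by norm_num)
    have z5 : va 5 ≠ 0 := va_ne (by norm_num)
    have z6 : va 6 ≠ 0 := va_ne (by norm_num)
    have z7 : va 7 ≠ 0 := va_ne (by norm_num)
    have z8 : va 8 ≠ 0 := va_ne (by norm_num)
    have hg := gauss17
    generalize va 1 = a1 at *
    generalize va 2 = a2 at *
    generalize va 3 = a3 at *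
    generalize va 4 = a4 at *
    generalize va 5 = a5 at *
    generalize va 6 = a6 at *
    generalize va 7 = a7 at *
    generalize va 8 = a8 at *
    field_simp
    linear_combination (-4 : ℂ) * hg
  rw [hval] at hX
  exact hX

/-- the value of the coordinate at the cusp zero, along horocycles -/
lemma X0_hor : Tendsto X0 (Hor (((0 : ℚ) : ℚ) : ℂ)) (𝓝 (27 / 4)) := by
  have e0 : (((0 : ℚ) : ℚ) : ℂ) = 0 := by simp
  rw [e0]
  have hW : Tendsto (fun z : ℂ => -1 / (17 * z)) (Hor 0) iI := by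
    unfold iI
    rw [tendsto_comap_iff]
    have e : (Complex.im ∘ fun z : ℂ => -1 / (17 * z)) =
        fun z => (17 : ℝ)⁻¹ * (z.im / Complex.normSq (z - 0)) := by
      ext z
      have e1 : (-1 : ℂ) / (17 * z) = (((-(17 : ℝ)⁻¹) : ℝ) : ℂ) * z⁻¹ := by
        push_cast
        rw [div_eq_mul_inv, mul_inv]
        ring
      simp only [Function.comp_apply]
      rw [e1, Complex.im_ofReal_mul, Complex.inv_im, sub_zero]
      ring
    rw [e]
    exact (tendsto_comap).const_mul_atTop (by norm_num)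
  refine (X0_W.comp hW).congr' ?_
  filter_upwards [hor_pos (0 : ℂ)] with z hz
  have hz0 : z ≠ 0 := by
    intro h
    rw [h] at hz
    simp at hz
  simp only [Function.comp_apply]
  congr 1
  field_simp

theorem tors0 (L : PeriodPair) (g2 : L.g₂ = 11 / 4) (g3 : L.g₃ = 12015 / 216) :
    Gen.II f17 0 ∉ L.lattice ∧ 2 * Gen.II f17 0 ∉ L.lattice ∧ 4 * Gen.II f17 0 ∈ L.lattice := by
  obtain ⟨h1, h2⟩ := Gen.II_value (param17 L g2 g3) X0_hor
  obtain ⟨h3, -, h4⟩ := (Pool.Agent.N816.M17.s_tors17 L g2 g3 _ h1).1 h2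
  exact ⟨h1, h3, h4⟩

end Pool.Agent.N809.M17
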