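import Pool.Agent.N809.M17.Cusp
import Pool.Agent.N974.Gen.S17
import Pool.Agent.N974.MF.Asm

/-!
The form of level 17 is an eigenform with the eigenvalues of the curve `17a1`.
-/

set_option autoImplicit false

open UpperHalfPlane hiding I
open MatrixGroups CongruenceSubgroup Filter Topology
open scoped ModularForm Pointwise

namespace Pool.Agent.N809.M17

open Complex (exp I)
open Pool.Agent.W97.TW
open Pool.Agent.W97.MT (qq qq_ne norm_qq norm_qq_lt RepC QV iI iI_pos iI_eventually tendsto_qq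
  mul_zero_or H_open hasDerivAt_qq exists_qq qParam_one num ap affCount)
open Pool.Agent.N974
open Pool.Agent.N974.MF (four_dvd)

lemma f17_ne : ∃ z : ℍ, f17 z ≠ 0 := by
  by_contra hcon
  push Not at hcon
  have h1 := QV.comp rep_phi.analyticAt_zero
  have h2 : QV (fun z => phi (qq z)) 0 := by
    refine (QV.const 0).of_eq (iI_pos.mono fun z hz => ?_)
    have h3 := hcon ⟨z, hz⟩
    rw [f17_apply] at h3
    have h4 : f0 z = 0 := h3
    rw [f0_q hz] at h4
    exact (mul_eq_zero.1 h4).resolve_left (qq_ne z)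
  have h5 := h1.val_unique h2
  rw [phi_zero] at h5
  exact one_ne_zero h5

lemma cc1 (k : ℤ) : cc k 1 = (if 17 - k = 1 then -1 else 0) + (if k = 1 then -1 else 0) := by
  unfold cc
  have : Finset.Icc (-((1 : ℕ) : ℤ)) ((1 : ℕ) : ℤ) = {-1, 0, 1} := by decide
  rw [this, Finset.sum_insert (by decide), Finset.sum_insert (by decide), Finset.sum_singleton]
  have e1 : ee k (-1) = 17 - k := by
    unfold ee JTP.tri
    norm_num
    ring
  have e2 : ee k 0 = 0 := by
    unfold ee JTP.tri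
    norm_num
  have e3 : ee k 1 = k := by
    unfold ee JTP.tri
    norm_num
  rw [e1, e2, e3]
  have s1 : sgn (-1) = -1 := by decide
  have s3 : sgn 1 = -1 := by decide
  rw [s1, s3]
  norm_num

lemma PA_one (k : ℤ) : PowerSeries.coeff 1 (PA k) = cc k 1 := by
  unfold PA
  rw [PowerSeries.coeff_mk]

lemma PI_one (k : ℤ) : PowerSeries.coeff 1 (PI k) = -cc k 1 := by
  have h : PA k * PI k = 1 := PowerSeries.mul_invOfUnit _ _ (by rw [PA_const]; rfl)
  have h1 := congrArg (PowerSeries.coeff 1) h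
  rw [PowerSeries.coeff_one_mul, PA_one, PA_const, PI_const, PowerSeries.coeff_one] at h1
  norm_num at h1
  linarith

lemma PH_one : PowerSeries.coeff 1 PH = -1 := by
  have c1 : PowerSeries.coeff 1 P1 = -1 := by
    unfold P1
    simp only [PowerSeries.coeff_one_mul, map_mul, PA_one, PI_one, PA_const, PI_const, cc1]
    norm_num
  have c9 : PowerSeries.coeff 1 P9 = 0 := by
    unfold P9
    simp only [PowerSeries.coeff_one_mul, map_mul, PA_one, PI_one, PA_const, PI_const, cc1]
    norm_num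
  have hden := den_const
  have h : (1 - PowerSeries.C 2 * (PowerSeries.X ^ 2 * P1)) *
      PowerSeries.invOfUnit (1 - PowerSeries.C 2 * (PowerSeries.X ^ 2 * P1)) 1 = (1 : PowerSeries ℤ) :=
    PowerSeries.mul_invOfUnit _ _ den_const
  have hd1 : PowerSeries.coeff 1 (1 - PowerSeries.C 2 * (PowerSeries.X ^ 2 * P1) :
      PowerSeries ℤ) = 0 := by
    rw [map_sub, PowerSeries.coeff_C_mul, PowerSeries.coeff_X_pow_mul', PowerSeries.coeff_one]
    norm_num
  have hi0 : PowerSeries.constantCoeff (PowerSeries.invOfUnit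
      (1 - PowerSeries.C 2 * (PowerSeries.X ^ 2 * P1) : PowerSeries ℤ) 1) = 1 := by
    simp
  have hi1 : PowerSeries.coeff 1 (PowerSeries.invOfUnit
      (1 - PowerSeries.C 2 * (PowerSeries.X ^ 2 * P1) : PowerSeries ℤ) 1) = 0 := by
    have h1 := congrArg (PowerSeries.coeff 1) h
    rw [PowerSeries.coeff_one_mul, hd1, hi0, PowerSeries.coeff_one, hden] at h1
    norm_num at h1
    exact h1
  have h3 : PowerSeries.coeff 1 (P3 - PowerSeries.X * PowerSeries.derivative ℤ P3) = 0 := by
    rw [map_sub, show (1 : ℕ) = 0 + 1 by rfl, PowerSeries.coeff_succ_X_mul,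
      PowerSeries.coeff_derivative]
    norm_num
  unfold PH
  rw [PowerSeries.coeff_one_mul, PowerSeries.coeff_one_mul, PowerSeries.coeff_one_mul, h3, hi1, hi0,
    c1, c9, P1_const, P9_const]
  simp [P3_const, P1_const, P9_const]

section eig

variable (Hdim : ∀ g : CuspForm (Gamma0 17 : Subgroup (GL (Fin 2) ℝ)) 2,
  ∃ c : ℂ, ∀ z : ℍ, g z = c * f17 z)
include Hdim

lemma hecke_f17 {p : ℕ} (hp : p.Prime) (z : ℍ) :
    heckeT 17 2 p f17 z = ((PowerSeries.coeff (p - 1) PH : ℤ) : ℂ) * f17 z := by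
  obtain ⟨c, hc⟩ := Hdim (heckeForm f17 hp)
  have h1 : ∀ z : ℍ, heckeT 17 2 p f17 z = c * f17 z := hc
  have h2 := hecke_rec f17 hp.pos h1 1
  have h3 : Pool.Agent.W97.TW.A f17 1 = 1 := by
    unfold Pool.Agent.W97.TW.A
    exact coeff_one
  have h4 : Pool.Agent.W97.TW.A f17 p = ((PowerSeries.coeff (p - 1) PH : ℤ) : ℂ) := by
    unfold Pool.Agent.W97.TW.A
    rw [coeff_f17 p]
    obtain ⟨m, rfl⟩ : ∃ m, p = m + 1 := ⟨p - 1, by have := hp.pos; omega⟩
    rw [PowerSeries.coeff_succ_X_mul]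
    rfl
  have h5 : Pool.Agent.W97.TW.B f17 p 1 = Pool.Agent.W97.TW.A f17 p := by
    unfold Pool.Agent.W97.TW.B
    rw [if_neg (c := p ∣ 1) (fun h => hp.one_lt.ne' (Nat.dvd_one.1 h)), mul_zero, zero_add, mul_one]
  rw [h3, mul_one, h5, h4] at h2
  rw [h1, h2]

lemma hecke_f17' {p : ℕ} (hp : p.Prime) (z : ℍ) :
    Pool.Agent.W97.MT.hecke 17 p f17 z =
      (((PowerSeries.coeff (p - 1) PH : ℤ) : ℤ) : ℂ) * f17 z := by
  have h6 : Pool.Agent.W97.MT.hecke 17 p f17 z = heckeT 17 2 p f17 z := by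
    unfold Pool.Agent.W97.MT.hecke heckeT
    norm_num
  rw [h6, hecke_f17 Hdim hp]

/-- the coefficients of the form and of the curve -/
theorem coef_eq17 {l : ℕ} (hl : l.Prime) : PowerSeries.coeff (l - 1) PH = ap Gen.E17 l := by
  have hE : ap Gen.E17 l = ap Pool.Agent.N816.M17.E17 l := rfl
  rw [hE]
  obtain ⟨m2, m3, m17, mb⟩ := Pool.Agent.N816.M17.s_min17
  obtain ⟨L, Op, Om, -, -, g2, g3, -⟩ := Pool.Agent.N975.LatRh.lat17
  by_cases l2 : l = 2
  · subst l2
    rw [PH_one]
    unfold ap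
    rw [m2]
    rfl
  have hP := param17 L g2 g3
  obtain ⟨-, i2, i4⟩ := tors0 L g2 g3
  set A : ℤ := PowerSeries.coeff (l - 1) PH with hA
  have hH : ∀ z : ℍ, Pool.Agent.W97.MT.hecke 17 l f17 z = (A : ℂ) * f17 z := fun z =>
    hecke_f17' Hdim hl z
  -- the bound
  have hb : |A| ≤ l + 1 := by
    have h1 := Pool.Agent.W97.MT.hsup 17 f17 f17_ne l hl A hH
    rw [Complex.norm_intCast] at h1
    exact_mod_cast h1
  -- modulo l
  have hmod : (l : ℤ) ∣ A - ap Pool.Agent.N816.M17.E17 l := by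
    have h1 := coeff_mod hl l2
    have h2 := (ZMod.intCast_eq_intCast_iff_dvd_sub _ _ _).1 h1
    have h3 := (dvd_neg (α := ℤ)).2 h2
    rwa [neg_sub] at h3
  have h1 := Gen.II_hecke (f := f17) hl hH 0
  rw [mul_zero] at h1
  by_cases l17 : l = 17
  · -- the prime 17
    subst l17
    rw [if_pos (dvd_refl 17), zero_add] at h1
    have h2 : ∀ b ∈ Finset.range 16,
        Gen.II f17 ((0 + ((b + 1 : ℕ) : ℚ)) / ((17 : ℕ) : ℚ)) ∈ L.lattice := by
      intro b hb
      apply Gen.II_inf hP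
      have h3 : ((0 + ((b + 1 : ℕ) : ℚ)) / ((17 : ℕ) : ℚ)) = ((b + 1 : ℕ) : ℚ) / ((17 : ℕ) : ℚ) := by
        rw [zero_add]
      rw [h3]
      have hco : Nat.Coprime (b + 1) 17 := by
        rw [Nat.coprime_comm, Nat.Prime.coprime_iff_not_dvd (by norm_num)]
        have := Finset.mem_range.1 hb
        intro h
        have := Nat.le_of_dvd (by omega) h
        omega
      have h4 := Rat.den_div_eq_of_coprime (a := ((b + 1 : ℕ) : ℤ)) (b := 17) (by norm_num) hco
      have h5 : (((((b + 1 : ℕ) : ℤ) : ℚ) / ((17 : ℤ) : ℚ)).den : ℤ) = 17 := h4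
      have h6 : ((((b + 1 : ℕ) : ℤ) : ℚ) / ((17 : ℤ) : ℚ)) = ((b + 1 : ℕ) : ℚ) / ((17 : ℕ) : ℚ) := by
        push_cast
        rfl
      rw [h6] at h5
      rw [h5]
      norm_num
    have h3 := sum_mem h2
    rw [Finset.sum_range_succ'] at h1
    have h4 : ((A - 1 : ℤ) : ℂ) * Gen.II f17 0 ∈ L.lattice := by
      convert h3 using 1
      push_cast at h1 ⊢
      rw [add_zero, zero_div] at h1
      linear_combination h1
    have h5 := four_dvd L _ i2 i4 _ h4
    have h6 : ap Pool.Agent.N816.M17.E17 17 = 1 := Pool.Agent.N816.M17.ap17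
    rw [h6] at hmod ⊢
    have h7 := abs_le.1 hb
    push_cast at h7 hmod
    omega
  · -- modulo 4
    have hl17 : ¬ l ∣ 17 := by
      intro h
      exact l17 ((Nat.prime_dvd_prime_iff_eq hl (by norm_num)).1 h)
    have h4A : (4 : ℤ) ∣ l + 1 - A := by
      apply four_dvd L (Gen.II f17 0) i2 i4
      rw [if_neg hl17] at h1
      have h2 : ∀ b ∈ Finset.range l, Gen.II f17 (((0 : ℚ) + b) / l) - Gen.II f17 0 ∈ L.lattice := by
        intro b _
        apply Gen.II_cop hP
        have hden : (((((0 : ℚ) + b) / l : ℚ).den : ℤ)) ∣ l := by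
          have := Rat.den_dvd (b : ℤ) (l : ℤ)
          rw [zero_add]
          rwa [Rat.divInt_eq_div, Int.cast_natCast, Int.cast_natCast] at this
        rw [Nat.Prime.coprime_iff_not_dvd (by norm_num)]
        intro h
        have h3 : ((17 : ℕ) : ℤ) ∣ l := (Int.natCast_dvd_natCast.2 h).trans hden
        have h4 : 17 ∣ l := by exact_mod_cast h3
        exact l17 ((Nat.prime_dvd_prime_iff_eq (by norm_num) hl).1 h4).symm
      have h3 := sum_mem h2
      rw [Finset.sum_sub_distrib, Finset.sum_const, Finset.card_range, nsmul_eq_mul] at h3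
      have h4 : ((l + 1 - A : ℤ) : ℂ) * Gen.II f17 0 =
          -((∑ b ∈ Finset.range l, Gen.II f17 (((0 : ℚ) + b) / l)) - (l : ℂ) * Gen.II f17 0) := by
        push_cast at h1 ⊢
        linear_combination (-1 : ℂ) * h1
      rw [h4]
      exact neg_mem h3
    have h4E : (4 : ℤ) ∣ l + 1 - ap Pool.Agent.N816.M17.E17 l := by
      have h1 := Pool.Agent.N816.M17.s_four17 l hl l2 l17
      have h2 : ((4 : ℕ) : ℤ) ∣ ((affCount Pool.Agent.N816.M17.E17 l + 1 : ℕ) : ℤ) :=
        Int.natCast_dvd_natCast.2 h1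
      unfold ap
      push_cast at h2
      convert h2 using 1
      ring
    have h4 : (4 : ℤ) ∣ A - ap Pool.Agent.N816.M17.E17 l := by omega
    have hE : |ap Pool.Agent.N816.M17.E17 l| ≤ l := by
      have h1 := mb l hl
      unfold ap
      rw [abs_le]
      omega
    have hcop : IsCoprime (4 : ℤ) (l : ℤ) := by
      have h1 : Nat.Coprime 4 l := by
        rw [show 4 = 2 * 2 by norm_num]
        have := (Nat.coprime_primes Nat.prime_two hl).2 (Ne.symm l2)
        exact Nat.Coprime.mul_left this this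
      exact_mod_cast Nat.isCoprime_iff_coprime.2 h1
    obtain ⟨k, hk⟩ := hcop.mul_dvd h4 hmod
    have hA' := abs_le.1 hb
    have hE' := abs_le.1 hE
    have hl2 : 2 ≤ l := hl.two_le
    have hk0 : k = 0 := by
      have h1 : |A - ap Pool.Agent.N816.M17.E17 l| < 4 * l := by
        rw [abs_lt]
        constructor <;> [linarith [hA'.1, hE'.2]; linarith [hA'.2, hE'.1]]
      rw [hk, abs_mul, abs_of_pos (by positivity : (0 : ℤ) < 4 * l)] at h1
      have h2 : |k| < 1 := by nlinarith [abs_nonneg k]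
      exact Int.abs_lt_one_iff.1 h2
    rw [hk0, mul_zero] at hk
    linarith

/-- the eigenform -/
theorem eigen17_of : Gen.Eigen f17 (fun p => ap Gen.E17 p) where
  one := coeff_one
  hecke p hp z := by
    rw [hecke_f17 Hdim hp, coef_eq17 Hdim hp]
  good p hp _ := Pool.Agent.N816.M17.good17 p hp
  bad p hp h := by
    have : p = 17 := (Nat.prime_dvd_prime_iff_eq hp (by norm_num)).1 h
    subst this
    have h1 : ap Gen.E17 17 = 1 := Gen.ap17_17
    simp only [h1]
    norm_num

end eig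

end Pool.Agent.N809.M17
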