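import Pool.Agent.N809.M17.Alg
import Pool.Agent.N974.Gen.Lat

/-!
The cusp form of level 17 and the modular parametrization.
-/

set_option autoImplicit false

open UpperHalfPlane hiding I
open MatrixGroups CongruenceSubgroup Filter Topology
open scoped ModularForm Pointwise

namespace Pool.Agent.N809.M17

open Complex (exp I)
open Pool.Agent.W97.TW
open Pool.Agent.W97.MT (qq qq_ne norm_qq norm_qq_lt Rep RepC QV iI iI_pos iI_eventually tendsto_qq
  mul_zero_or H_open hasDerivAt_qq exists_qq)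

/-! ### expansions at infinity -/

lemma rep_diffAt {h : ℂ → ℂ} {Φ : PowerSeries ℤ} (hr : Rep h Φ) {q : ℂ} (hq : ‖q‖ < 1) :
    DifferentiableAt ℂ h q :=
  (RepC.differentiableOn hr).differentiableAt (Metric.isOpen_ball.mem_nhds (by simpa using hq))

lemma rep_comp {h : ℂ → ℂ} {Φ : PowerSeries ℤ} (hr : Rep h Φ) {z : ℂ} (hz : 0 < z.im) :
    HasDerivAt (fun z => h (qq z)) (2 * Real.pi * I * (qq z * deriv h (qq z))) z := by
  refine ((rep_diffAt hr (norm_qq_lt hz)).hasDerivAt.comp z (hasDerivAt_qq z)).congr_deriv ?_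
  ring

lemma deriv_al1 {z : ℂ} (hz : 0 < z.im) : deriv (al 1) z =
    2 * Real.pi * I * (qq z ^ 2 * (2 * x1 (qq z) + qq z * deriv x1 (qq z))) := by
  have h1 := ((hasDerivAt_qq z).pow 2).mul (rep_comp rep1 hz)
  have h2 : al 1 =ᶠ[𝓝 z] (qq ^ 2 * fun z => x1 (qq z)) := by
    filter_upwards [H_open.mem_nhds hz] with w hw
    exact al1_q hw
  rw [(h1.congr_of_eventuallyEq h2).deriv]
  simp only [Pi.pow_apply]
  push_cast
  ring

lemma deriv_al3 {z : ℂ} (hz : 0 < z.im) : deriv (al 3) z =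
    2 * Real.pi * I * ((qq z)⁻¹ * (qq z * deriv x3 (qq z) - x3 (qq z))) := by
  have h1 := ((hasDerivAt_qq z).inv (qq_ne z)).mul (rep_comp rep3 hz)
  have h2 : al 3 =ᶠ[𝓝 z] (qq⁻¹ * fun z => x3 (qq z)) := by
    filter_upwards [H_open.mem_nhds hz] with w hw
    exact al3_q hw
  rw [(h1.congr_of_eventuallyEq h2).deriv]
  have hq := qq_ne z
  simp only [Pi.inv_apply]
  field_simp
  ring

/-- the form as a function of `q`, divided by `q` -/
noncomputable def phi (q : ℂ) : ℂ :=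
  (17 : ℂ)⁻¹ * ((2 * (q ^ 2 * x1 q) - 1) * (x1 q * x9 q) * (q * deriv x3 q - x3 q) +
    4 * (2 * x3 q - q) * (2 * x1 q + q * deriv x1 q))

lemma one_sub_al1 {z : ℂ} (hz : 0 < z.im) : 1 - al 1 z = x9 (qq z) := by
  rw [← al9_q hz, ← al_nine (g := 1) (by norm_num) hz, mul_one]

lemma f0_q {z : ℂ} (hz : 0 < z.im) : f0 z = qq z * phi (qq z) := by
  unfold f0 Wg phi
  rw [mul_one, one_sub_al1 hz, deriv_al1 hz, deriv_al3 hz, al1_q hz, al3_q hz]
  have hp := tpi_ne
  have hq := qq_ne z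
  have hI : (I : ℂ) ≠ 0 := Complex.I_ne_zero
  have hpi : (Real.pi : ℂ) ≠ 0 := by exact_mod_cast Real.pi_ne_zero
  field_simp

lemma phi_diff : DifferentiableOn ℂ phi (Metric.ball 0 1) := by
  intro q hq
  have hq' : ‖q‖ < 1 := by simpa using hq
  have d1 := rep_diffAt rep1 hq'
  have d3 := rep_diffAt rep3 hq'
  have d9 := rep_diffAt rep9 hq'
  have e1 : DifferentiableAt ℂ (deriv x1) q :=
    ((RepC.differentiableOn rep1).deriv Metric.isOpen_ball).differentiableAt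
      (Metric.isOpen_ball.mem_nhds hq)
  have e3 : DifferentiableAt ℂ (deriv x3) q :=
    ((RepC.differentiableOn rep3).deriv Metric.isOpen_ball).differentiableAt
      (Metric.isOpen_ball.mem_nhds hq)
  have : DifferentiableAt ℂ phi q := by
    unfold phi
    fun_prop
  exact this.differentiableWithinAt

lemma phi_zero : phi 0 = 1 := by
  unfold phi
  rw [x1_zero, x3_zero, x9_zero]
  norm_num

lemma phi_P {q : ℂ} (hq : ‖q‖ < 1) :
    phi q * (1 - 2 * (q ^ 2 * x1 q)) = x1 q * x9 q * (x3 q - q * deriv x3 q) := by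
  by_cases h0 : q = 0
  · subst h0
    rw [phi_zero, x1_zero, x3_zero, x9_zero]
    ring
  · obtain ⟨z, hz, rfl⟩ := exists_qq hq h0
    have h := f0_P hz
    rw [f0_q hz, one_sub_al1 hz, deriv_al3 hz, al1_q hz] at h
    have hp := tpi_ne
    have h2 : (2 * Real.pi * I) * qq z * (phi (qq z) * (2 * (qq z ^ 2 * x1 (qq z)) - 1)) =
        (2 * Real.pi * I) * qq z * (x1 (qq z) * x9 (qq z) *
          (qq z * deriv x3 (qq z) - x3 (qq z))) := by
      have e : qq z ^ 2 * (qq z)⁻¹ = qq z := by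
        field_simp
      linear_combination h + (2 * Real.pi * I) * (x1 (qq z) * x9 (qq z) *
        (qq z * deriv x3 (qq z) - x3 (qq z))) * e
    have h3 := mul_left_cancel₀ (mul_ne_zero hp h0) h2
    linear_combination (-1 : ℂ) * h3

/-- the integral power series of the form, divided by `q` -/
noncomputable def PH : PowerSeries ℤ :=
  P1 * P9 * (P3 - PowerSeries.X * PowerSeries.derivative ℤ P3) *
    PowerSeries.invOfUnit (1 - PowerSeries.C 2 * (PowerSeries.X ^ 2 * P1)) 1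

lemma den_const : PowerSeries.constantCoeff (1 - PowerSeries.C 2 * (PowerSeries.X ^ 2 * P1) :
    PowerSeries ℤ) = ((1 : ℤˣ) : ℤ) := by
  simp

lemma rep_phi : Rep phi PH := by
  obtain ⟨Φ, hΦ⟩ := RepC.exists_of_differentiableOn phi_diff
  have hden : Rep (fun q => 1 - 2 * (q ^ 2 * x1 q)) (1 - PowerSeries.C 2 * (PowerSeries.X ^ 2 * P1)) := by
    have := (Pool.Agent.W97.MT.Rep.one).sub ((Pool.Agent.W97.MT.Rep.C 2).mul
      ((Pool.Agent.W97.MT.Rep.X.pow 2).mul rep1))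
    push_cast at this
    exact this
  have hnum : Rep (fun q => x1 q * x9 q * (x3 q - q * deriv x3 q))
      (P1 * P9 * (P3 - PowerSeries.X * PowerSeries.derivative ℤ P3)) :=
    (rep1.mul rep9).mul (rep3.sub rep3.theta)
  have h1 : Φ * PowerSeries.map (Int.castRingHom ℂ) (1 - PowerSeries.C 2 * (PowerSeries.X ^ 2 * P1)) =
      PowerSeries.map (Int.castRingHom ℂ)
        (P1 * P9 * (P3 - PowerSeries.X * PowerSeries.derivative ℤ P3)) := by
    refine (RepC.mul hΦ hden).unique (RepC.congr hnum fun q hq => ?_)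
    exact phi_P hq
  have h2 : (1 - PowerSeries.C 2 * (PowerSeries.X ^ 2 * P1)) *
      PowerSeries.invOfUnit (1 - PowerSeries.C 2 * (PowerSeries.X ^ 2 * P1)) 1 = (1 : PowerSeries ℤ) :=
    PowerSeries.mul_invOfUnit _ _ den_const
  have h3 : Φ = PowerSeries.map (Int.castRingHom ℂ) PH := by
    unfold PH
    rw [map_mul, ← h1, mul_assoc, ← map_mul, h2, map_one, mul_one]
  change RepC phi (PowerSeries.map (Int.castRingHom ℂ) PH)
  rw [← h3]
  exact hΦ

lemma f0_diff {z : ℂ} (hz : 0 < z.im) : DifferentiableAt ℂ f0 z := by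
  have h1 := (rep_comp rep_phi hz).differentiableAt
  have h2 : f0 =ᶠ[𝓝 z] fun z => qq z * phi (qq z) := by
    filter_upwards [H_open.mem_nhds hz] with w hw
    exact f0_q hw
  exact ((hasDerivAt_qq z).differentiableAt.mul h1).congr_of_eventuallyEq h2

lemma QV_f0 : QV f0 0 := by
  refine ((QV.qq'.mul (QV.comp rep_phi.analyticAt_zero)).of_eq (iI_pos.mono fun z hz => ?_)).of_val
    (zero_mul _)
  exact f0_q hz

/-! ### the cusp zero -/

lemma tri_nonneg (j : ℤ) : 0 ≤ JTP.tri j := by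
  have := JTP.two_tri j
  rcases le_or_gt j 0 with h | h
  · nlinarith
  · nlinarith

lemma te_analytic {x : ℂ} (hx : x ≠ 0) :
    AnalyticAt ℂ (fun q => ∑' j : ℤ, JTP.te q x j) 0 := by
  have h1 : DifferentiableOn ℂ (fun q => ∑' j : ℤ, JTP.te q x j) (Metric.ball 0 (1 / 2)) := by
    refine Complex.differentiableOn_tsum_of_summable_norm
      (u := fun j : ℤ => (1 / 2 : ℝ) ^ JTP.tri j * ‖x‖ ^ j)
      (JTP.summable_aux (by norm_num) (by norm_num) (norm_pos_iff.2 hx)) ?_ Metric.isOpen_ball ?_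
    · intro j q _
      unfold JTP.te
      exact (((differentiableAt_zpow.2 (Or.inr (tri_nonneg j))).const_mul _).mul_const
        _).differentiableWithinAt
    · intro j q hq
      have hq' : ‖q‖ < 1 / 2 := by simpa using hq
      obtain ⟨m, hm⟩ := Int.eq_ofNat_of_zero_le (tri_nonneg j)
      rw [JTP.norm_te, hm, zpow_natCast, zpow_natCast]
      gcongr
  exact h1.analyticAt (Metric.ball_mem_nhds _ (by norm_num))

lemma te_zero {x : ℂ} (hx : x ≠ 0) : ∑' j : ℤ, JTP.te 0 x j = 1 - x :=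
  tendsto_nhds_unique (te_analytic hx).continuousAt.tendsto (te_lim hx)

/-- the theta function at the cusp zero without the exponential factor -/
noncomputable def Bq (g : ℤ) (q : ℂ) : ℂ :=
  exp (Real.pi * I * (g / 17)) * ∑' j : ℤ, JTP.te q (exp (2 * Real.pi * I * (-(g / 17)))) j

lemma QV_Bq (g : ℤ) : QV (fun z => Bq g (qq z)) (va g) := by
  have h1 := te_analytic (x := exp (2 * Real.pi * I * (-(g / 17)))) (Complex.exp_ne_zero _)
  have h2 : AnalyticAt ℂ (Bq g) 0 := by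
    unfold Bq
    exact analyticAt_const.mul h1
  refine (QV.comp h2).of_val ?_
  unfold Bq va
  rw [te_zero (Complex.exp_ne_zero _)]

lemma Ph_Bq (g : ℤ) (z : ℂ) : Ph 0 (-(g / 17)) z = exp (Real.pi * I * (z / 4)) * Bq g (qq z) := by
  unfold Bq
  rw [Ph_te]
  have e1 : exp (2 * Real.pi * I * z) = qq z := rfl
  have e2 : exp (2 * Real.pi * I * (0 * z + -((g : ℂ) / 17))) =
      exp (2 * Real.pi * I * (-(g / 17))) := by rw [zero_mul, zero_add]
  rw [e1, e2, ← mul_assoc]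
  congr 1
  rw [← Complex.exp_add]
  congr 1
  ring

/-- the unit at the cusp zero -/
lemma QV_W {g : ℤ} (hg : ¬ (17 : ℤ) ∣ g) : QV (fun z => al g (-1 / (17 * z))) (v0 g) := by
  obtain ⟨J, hJ, hth⟩ := th_W
  have n6 := va_ne (not_dvd_mul hg (k := 6) (by norm_num))
  have n7 := va_ne (not_dvd_mul hg (k := 7) (by norm_num))
  refine (((QV_Bq g).mul (QV_Bq (4 * g))).mul (((QV_Bq (6 * g)).mul (QV_Bq (7 * g))).inv
    (mul_ne_zero n6 n7))).of_eq (iI_pos.mono fun z hz => ?_)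
  have hJz := hJ z hz
  unfold al
  rw [hth _ z hz, hth _ z hz, hth _ z hz, hth _ z hz]
  simp only [Ph_Bq]
  have hs : ((-1 : ℂ)) ^ g * (-1) ^ (4 * g) = (-1) ^ (6 * g) * (-1) ^ (7 * g) := by
    rw [← zpow_add₀ (by norm_num), ← zpow_add₀ (by norm_num)]
    have : 6 * g + 7 * g = (g + 4 * g) + 2 * (4 * g) := by ring
    rw [this, zpow_add₀ (by norm_num) (g + 4 * g), zpow_mul (-1 : ℂ) 2]
    norm_num
  have hs1 : ((-1 : ℂ)) ^ (6 * g) ≠ 0 := zpow_ne_zero _ (by norm_num)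
  have hs2 : ((-1 : ℂ)) ^ (7 * g) ≠ 0 := zpow_ne_zero _ (by norm_num)
  have he : exp (Real.pi * I * (z / 4)) ≠ 0 := Complex.exp_ne_zero _
  generalize exp (Real.pi * I * (z / 4)) = w at he
  have e8 : (-1 : ℂ) ^ g * (J z * (w * Bq g (qq z))) *
      ((-1) ^ (4 * g) * (J z * (w * Bq (4 * g) (qq z)))) =
      ((-1) ^ (6 * g) * (-1) ^ (7 * g) * (J z * J z * (w * w))) *
        (Bq g (qq z) * Bq (4 * g) (qq z)) := by
    linear_combination (J z * J z * (w * w) * (Bq g (qq z) * Bq (4 * g) (qq z))) * hs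
  have e9 : (-1 : ℂ) ^ (6 * g) * (J z * (w * Bq (6 * g) (qq z))) *
      ((-1) ^ (7 * g) * (J z * (w * Bq (7 * g) (qq z)))) =
      ((-1) ^ (6 * g) * (-1) ^ (7 * g) * (J z * J z * (w * w))) *
        (Bq (6 * g) (qq z) * Bq (7 * g) (qq z)) := by
    ring
  rw [e8, e9, mul_div_mul_left _ _ (mul_ne_zero (mul_ne_zero hs1 hs2)
    (mul_ne_zero (mul_ne_zero hJz hJz) (mul_ne_zero he he))), div_eq_mul_inv]

lemma W_pos {z : ℂ} (hz : 0 < z.im) : 0 < (-1 / (17 * z)).im ∧ z ≠ 0 := by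
  have h1 := im_moebius (a := 0) (b := -1) (c := 1) (d := 0) (by norm_num) (im17 hz)
  have h2 : z ≠ 0 := by
    rintro rfl
    simp at hz
  refine ⟨?_, h2⟩
  have := h1.1
  push_cast at this
  rw [zero_mul, zero_add, one_mul, add_zero] at this
  exact this

lemma hasDerivAt_W {z : ℂ} (hz : z ≠ 0) :
    HasDerivAt (fun z : ℂ => -1 / (17 * z)) ((17 * z ^ 2)⁻¹) z := by
  have h1 : HasDerivAt (fun z : ℂ => 17 * z) 17 z := by
    simpa using (hasDerivAt_id z).const_mul (17 : ℂ)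
  refine ((hasDerivAt_const z (-1 : ℂ)).div h1 (mul_ne_zero (by norm_num) hz)).congr_deriv ?_
  field_simp
  ring

/-- the form at the cusp zero -/
lemma QV_f0W : QV (fun z => f0 (-1 / (17 * z)) * (17 * z ^ 2)⁻¹) 0 := by
  have n1 : ¬ (17 : ℤ) ∣ 1 := by norm_num
  have n3 : ¬ (17 : ℤ) ∣ 3 := by norm_num
  have a1 := QV_W n1
  have a3 := QV_W n3
  obtain ⟨k1, hk1, d1⟩ := a1.deriv'
  obtain ⟨k3, hk3, d3⟩ := a3.deriv'
  have e1 := (QV.qq'.mul (QV.comp hk1))
  have e3 := (QV.qq'.mul (QV.comp hk3))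
  have key := ((((((QV.const 2).mul a1).sub (QV.const 1)).mul (a1.mul ((QV.const 1).sub a1))).mul
    e3).add ((((QV.const 4).mul (((QV.const 2).mul a3).sub (QV.const 1)))).mul e1)).mul
    (QV.const (17⁻¹))
  refine (key.of_eq ?_).of_val (by ring)
  filter_upwards [iI_pos, d1, d3] with z hz hd1 hd3
  obtain ⟨hm, h0⟩ := W_pos hz
  have t1 : HasDerivAt (fun z => al 1 (-1 / (17 * z)))
      (deriv (al 1) (-1 / (17 * z)) * (17 * z ^ 2)⁻¹) z :=
    HasDerivAt.comp (h₂ := al 1) z (al_diff n1 hm).hasDerivAt (hasDerivAt_W h0)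
  have t3 : HasDerivAt (fun z => al 3 (-1 / (17 * z)))
      (deriv (al 3) (-1 / (17 * z)) * (17 * z ^ 2)⁻¹) z :=
    HasDerivAt.comp (h₂ := al 3) z (al_diff n3 hm).hasDerivAt (hasDerivAt_W h0)
  have c1 := t1.unique hd1
  have c3 := t3.unique hd3
  have hp := tpi_ne
  unfold f0 Wg
  rw [mul_one]
  have c1' : deriv (al 1) (-1 / (17 * z)) * (17 * z ^ 2)⁻¹ * (2 * Real.pi * I)⁻¹ =
      qq z * k1 (qq z) := by
    rw [c1]
    field_simp
  have c3' : deriv (al 3) (-1 / (17 * z)) * (17 * z ^ 2)⁻¹ * (2 * Real.pi * I)⁻¹ =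
      qq z * k3 (qq z) := by
    rw [c3]
    field_simp
  rw [← c1', ← c3', mul_inv]
  ring

/-- the form as a function on the upper half-plane -/
noncomputable def e17 (z : ℍ) : ℂ := f0 z

lemma e17_slash {γ : SL(2, ℤ)} (hγ : γ ∈ Gamma0 17) : e17 ∣[(2 : ℤ)] γ = e17 := by
  obtain ⟨a, b, c, d, h, rfl⟩ := exists_mkSL γ
  rw [mkSL_mem] at hγ
  obtain ⟨c, rfl⟩ := hγ
  funext z
  have h' : a * d - b * (17 * c) = 1 := by push_cast at h; linarith
  have h1 := f0_gamma h' z.im_pos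
  have h0 : (17 * c * z + d : ℂ) ≠ 0 := (gam_pos h' z.im_pos).2
  rw [ModularForm.SL_slash_apply, mkSL_denom]
  unfold e17
  rw [mkSL_smul]
  push_cast
  rw [h1, zpow_neg, show ((17 * c * z + d : ℂ) ^ (2 : ℤ)) = (17 * c * z + d) ^ 2 from zpow_ofNat _ 2,
    mul_comm, ← mul_assoc, inv_mul_cancel₀ (pow_ne_zero 2 h0), one_mul]

lemma e17_holo : MDifferentiable (modelWithCornersSelf ℂ ℂ) (modelWithCornersSelf ℂ ℂ) e17 := by
  rw [UpperHalfPlane.mdifferentiable_iff]
  have h1 : DifferentiableOn ℂ f0 {z : ℂ | 0 < z.im} := fun w hw =>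
    (f0_diff hw).differentiableWithinAt
  refine h1.congr fun w hw => ?_
  simp only [Function.comp_apply]
  unfold e17
  rw [ofComplex_apply_of_im_pos hw]

lemma f0_add_int {z : ℂ} (hz : 0 < z.im) (j : ℤ) : f0 (z + j) = f0 z := by
  have h := f0_gamma (a := 1) (b := j) (c := 0) (d := 1) (by ring) hz
  push_cast at h
  simp only [mul_zero, zero_mul, zero_add, one_mul, div_one, one_pow] at h
  exact h

lemma e17_zero (γ : SL(2, ℤ)) : IsZeroAtImInfty (e17 ∣[(2 : ℤ)] γ) := by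
  obtain ⟨a, b, c, d, h, rfl⟩ := exists_mkSL γ
  obtain ⟨j, e, he, h14⟩ := CP.cusp_reps_int a b c d h
  obtain ⟨c0, hc0⟩ := h14
  have hdet : (a - e * (b - j * a)) * (d - j * c) - (b - j * a) * (17 * c0) = 1 := by
    rw [← hc0]
    linear_combination h
  -- reduction
  have red : ∀ z : ℍ, (e17 ∣[(2 : ℤ)] mkSL a b c d h) z =
      f0 (((z : ℂ) + j) / (e * (z + j) + 1)) * ((e * ((z : ℂ) + j) + 1) ^ 2)⁻¹ := by
    intro z
    have hw : 0 < ((z : ℂ) + j).im := by simpa using z.im_pos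
    have hu := im_moebius (a := 1) (b := 0) (c := e) (d := 1) (by ring) hw
    have hu1 : 0 < (((z : ℂ) + j) / (e * (z + j) + 1)).im := by simpa using hu.1
    have hu2 : (e : ℂ) * (z + j) + 1 ≠ 0 := by simpa using hu.2
    have h2 := f0_gamma hdet hu1
    have hc0' : (17 : ℂ) * c0 = c - e * (d - j * c) := by exact_mod_cast hc0.symm
    have e1 : ((a - e * (b - j * a) : ℤ) : ℂ) * (((z : ℂ) + j) / (e * (z + j) + 1)) +
        ((b - j * a : ℤ) : ℂ) = (a * z + b) / (e * (z + j) + 1) := by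
      rw [eq_div_iff hu2, add_mul, mul_assoc, div_mul_cancel₀ _ hu2]
      push_cast
      ring
    have e2 : ((c : ℂ) - e * (d - j * c)) * (((z : ℂ) + j) / (e * (z + j) + 1)) +
        ((d - j * c : ℤ) : ℂ) = (c * z + d) / (e * (z + j) + 1) := by
      rw [eq_div_iff hu2, add_mul, mul_assoc, div_mul_cancel₀ _ hu2]
      push_cast
      ring
    have hcd : (c : ℂ) * z + d ≠ 0 := (im_moebius h z.im_pos).2
    rw [hc0', e1, e2, div_div_div_cancel_right₀ hu2] at h2
    rw [ModularForm.SL_slash_apply, mkSL_denom]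
    unfold e17
    rw [mkSL_smul, h2, zpow_neg, show ((c * z + d : ℂ) ^ (2 : ℤ)) = (c * z + d) ^ 2 from
      zpow_ofNat _ 2]
    field_simp
  rw [isZeroAtImInfty_iff]
  intro ε hε
  rcases he with rfl | rfl
  · have h1 : ∀ᶠ z in iI, ‖f0 z‖ ≤ ε := by
      have := QV_f0.tendsto.norm.eventually (eventually_le_nhds (show ‖(0 : ℂ)‖ < ε by simpa using hε))
      exact this
    obtain ⟨T, hT, h2⟩ := iI_eventually.1 h1
    refine ⟨T + 1, fun z hz => ?_⟩
    rw [red z]
    have e1 : ((z : ℂ) + j) / (((0 : ℤ) : ℂ) * (z + j) + 1) = z + j := by push_cast; ring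
    have e2 : ((((0 : ℤ) : ℂ) * ((z : ℂ) + j) + 1) ^ 2)⁻¹ = 1 := by push_cast; norm_num
    rw [e1, e2, mul_one, f0_add_int z.im_pos]
    exact h2 z (by
      have : z.im = (z : ℂ).im := rfl
      linarith)
  · have h1 : ∀ᶠ z in iI, ‖f0 (-1 / (17 * z)) * (17 * z ^ 2)⁻¹‖ ≤ ε := by
      have := QV_f0W.tendsto.norm.eventually
        (eventually_le_nhds (show ‖(0 : ℂ)‖ < ε by simpa using hε))
      exact this
    obtain ⟨T, hT, h2⟩ := iI_eventually.1 h1
    refine ⟨17 * (T + 1), fun z hz => ?_⟩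
    rw [red z]
    set v : ℂ := ((z : ℂ) + j + 1) / 17 with hv
    have hvi : v.im = (z : ℂ).im / 17 := by
      rw [hv, Complex.div_ofNat_im]
      simp
    have hzim : z.im = (z : ℂ).im := rfl
    have hvT : T < v.im := by rw [hvi]; linarith
    have hv0 : 0 < v.im := lt_of_le_of_lt hT hvT
    obtain ⟨hm, hn⟩ := W_pos hv0
    have h3 := h2 v hvT
    have e1 : ((z : ℂ) + j) / (((1 : ℤ) : ℂ) * (z + j) + 1) = -1 / (17 * v) + ((1 : ℤ) : ℂ) := by
      have e2 : ((1 : ℤ) : ℂ) * ((z : ℂ) + j) + 1 = 17 * v := by rw [hv]; push_cast; ring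
      have e3 : (17 : ℂ) * v ≠ 0 := mul_ne_zero (by norm_num) hn
      rw [e2, div_add' _ _ _ e3]
      congr 1
      rw [hv]
      push_cast
      ring
    have e2 : ((((1 : ℤ) : ℂ) * ((z : ℂ) + j) + 1) ^ 2)⁻¹ = 17⁻¹ * (17 * v ^ 2)⁻¹ := by
      have : ((1 : ℤ) : ℂ) * ((z : ℂ) + j) + 1 = 17 * v := by rw [hv]; push_cast; ring
      rw [this]
      field_simp
    rw [e1, e2, f0_add_int hm, mul_comm (17⁻¹ : ℂ), ← mul_assoc, norm_mul]
    have e4 : ‖(17⁻¹ : ℂ)‖ ≤ 1 := by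
      rw [norm_inv]
      norm_num
    calc ‖f0 (-1 / (17 * v)) * (17 * v ^ 2)⁻¹‖ * ‖(17⁻¹ : ℂ)‖ ≤ ε * 1 := by gcongr
      _ = ε := mul_one _

/-- the newform of level 17 -/
noncomputable def f17 : CuspForm (Gamma0 17 : Subgroup (GL (Fin 2) ℝ)) 2 where
  toFun := e17
  slash_action_eq' := by
    rintro _ ⟨γ, hγ, rfl⟩
    exact e17_slash hγ
  holo' := e17_holo
  zero_at_cusps' := by
    intro c hc
    rw [Subgroup.IsArithmetic.isCusp_iff_isCusp_SL2Z] at hc
    rw [OnePoint.isZeroAt_iff_forall_SL2Z hc]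
    intro γ _
    exact e17_zero γ

lemma f17_apply (z : ℍ) : f17 z = f0 z := rfl

end Pool.Agent.N809.M17
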