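import Pool.Agent.N809.M17.Form

/-!
The modular parametrization of the curve `17a1`.
-/

set_option autoImplicit false

open UpperHalfPlane hiding I
open MatrixGroups CongruenceSubgroup Filter Topology
open scoped ModularForm Pointwise

namespace Pool.Agent.N809.M17

open Complex (exp I)
open Pool.Agent.W97.TW
open Pool.Agent.W97.MT (qq qq_ne norm_qq norm_qq_lt RepC QV iI iI_pos iI_eventually tendsto_qq
  mul_zero_or H_open hasDerivAt_qq exists_qq)

lemma ff17 {z : ℂ} (hz : 0 < z.im) : Pool.Agent.N974.Gen.ff f17 z = f0 z := by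
  unfold Pool.Agent.N974.Gen.ff
  rw [ofComplex_apply_of_im_pos hz]
  rfl

lemma phi_gen {q : ℂ} (hq : ‖q‖ < 1) : Pool.Agent.N974.Gen.phi f17 q = phi q := by
  have key : ∀ q : ℂ, ‖q‖ < 1 → q ≠ 0 → Pool.Agent.N974.Gen.phi f17 q = phi q := by
    intro q hq h0
    obtain ⟨z, hz, rfl⟩ := exists_qq hq h0
    have h1 := Pool.Agent.N974.Gen.ff_q f17 hz
    rw [ff17 hz, f0_q hz] at h1
    exact (mul_left_cancel₀ h0 h1).symm
  by_cases h0 : q = 0
  · subst h0
    have a1 : AnalyticAt ℂ (Pool.Agent.N974.Gen.phi f17) 0 :=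
      (Pool.Agent.N974.Gen.phi_diff f17).analyticAt (Metric.ball_mem_nhds _ one_pos)
    have q1 := QV.comp a1
    have q2 := QV.comp rep_phi.analyticAt_zero
    have q3 := q1.of_eq (iI_pos.mono fun z hz => (key (qq z) (norm_qq_lt hz) (qq_ne z)).symm)
    exact q3.val_unique q2 |>.symm ▸ rfl
  · exact key q hq h0

lemma coeff_one : (qExpansion 1 f17).coeff 1 = 1 := by
  rw [← Pool.Agent.N974.Gen.phi_zero, phi_gen (by simp), phi_zero]

/-- invariance of the coordinate -/
lemma X0_gamma {a b c d : ℤ} (h : a * d - b * (17 * c) = 1) {z : ℂ} (hz : 0 < z.im) :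
    X0 ((a * z + b) / (17 * c * z + d)) = X0 z := by
  have hS : ∀ a : ℤ, ¬ (17 : ℤ) ∣ a →
      al (3 * a) z * (1 - al (3 * a) z) + al (3 * (3 * a)) z * (1 - al (3 * (3 * a)) z) =
      al a z * (1 - al a z) + al (3 * a) z * (1 - al (3 * a) z) := by
    intro a ha
    have e : (3 : ℤ) * (3 * a) = 9 * a := by ring
    rw [e, al_nine ha hz]
    ring
  have key : ∀ k : ℕ, al (3 ^ k) z * (1 - al (3 ^ k) z) +
      al (3 * 3 ^ k) z * (1 - al (3 * 3 ^ k) z) =
      al 1 z * (1 - al 1 z) + al 3 z * (1 - al 3 z) := by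
    intro k
    induction k with
    | zero => simp
    | succ k ih =>
      have hk : ¬ (17 : ℤ) ∣ 3 ^ k := by
        intro h
        have hp : Prime (17 : ℤ) := by
          rw [Int.prime_iff_natAbs_prime]
          norm_num
        have := hp.dvd_of_dvd_pow h
        norm_num at this
      have e : (3 : ℤ) ^ (k + 1) = 3 * 3 ^ k := by ring
      rw [e, hS _ hk, ih]
  have ha := not_dvd_of_det h
  have hA : ∀ a : ZMod 17, a ≠ 0 → ∃ k : Fin 16, a = 3 ^ k.val := by decide
  have ha' : ((a : ℤ) : ZMod 17) ≠ 0 := fun h => ha ((ZMod.intCast_zmod_eq_zero_iff_dvd a 17).1 h)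
  obtain ⟨k, hk⟩ := hA (a : ZMod 17) ha'
  have hd : (17 : ℤ) ∣ a - 3 ^ k.val := by
    have : ((a - 3 ^ k.val : ℤ) : ZMod 17) = 0 := by push_cast; rw [hk, sub_self]
    exact (ZMod.intCast_zmod_eq_zero_iff_dvd _ 17).1 this
  have hd3 : (17 : ℤ) ∣ 3 * a - 3 * 3 ^ k.val := by
    have e : 3 * a - 3 * 3 ^ k.val = 3 * (a - 3 ^ k.val) := by ring
    rw [e]
    exact dvd_mul_of_dvd_right hd 3
  unfold X0
  rw [al_gamma h 1 hz, al_gamma h 3 hz, mul_one, mul_comm a 3, al_congr hd, al_congr hd3, key]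

/-- the expansion of the coordinate -/
noncomputable def xiq (q : ℂ) : ℂ :=
  x3 q * x27 q - q ^ 4 * (x1 q * x9 q) - 5 / 4 * q ^ 2

lemma one_sub_al3 {z : ℂ} (hz : 0 < z.im) : 1 - al 3 z = -((qq z)⁻¹ * x27 (qq z)) := by
  rw [← al27_q hz, ← al_nine (g := 3) (by norm_num) hz]
  norm_num

lemma X0_q {z : ℂ} (hz : 0 < z.im) : X0 z = xiq (qq z) / qq z ^ 2 := by
  unfold X0 xiq
  rw [one_sub_al1 hz, one_sub_al3 hz, al1_q hz, al3_q hz]
  have hq := qq_ne z
  field_simp
  ring

lemma xiq_analytic : AnalyticAt ℂ xiq 0 := by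
  have a1 := rep1.analyticAt_zero
  have a3 := rep3.analyticAt_zero
  have a9 := rep9.analyticAt_zero
  have a27 := rep27.analyticAt_zero
  unfold xiq
  fun_prop

lemma xiq_zero : xiq 0 = 1 := by
  unfold xiq
  rw [x3_zero, x27_zero]
  norm_num

/-- the modular parametrization -/
theorem param17 (L : PeriodPair) (g2 : L.g₂ = 11 / 4) (g3 : L.g₃ = 12015 / 216) :
    Pool.Agent.N974.Gen.Param f17 L X0 where
  diff := fun z hz => X0_diff hz
  inv := by
    intro a b c d h z hz
    have h' : a * d - b * (17 * c) = 1 := by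
      have := h
      push_cast at this
      exact this
    have h2 := X0_gamma h' hz
    push_cast
    exact h2
  ode := by
    intro z hz
    rw [ff17 hz, g2, g3, X0_ode hz]
  exp := ⟨xiq, xiq_analytic, xiq_zero, iI_pos.mono fun z hz => X0_q hz⟩
  one := coeff_one

end Pool.Agent.N809.M17
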