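import Pool.Agent.N809.M17.S
import Pool.Agent.W97.MT.Ident

/-!
The expansions of the theta functions of level 17.
-/

set_option autoImplicit false

open Filter Topology Finset

namespace Pool.Agent.N809.M17

open Complex (exp I)
open Pool.Agent.W97.TW
open Pool.Agent.W97.MT (qq qq_ne norm_qq norm_qq_lt Rep RepC)

/-- the exponents -/
def ee (k j : ℤ) : ℤ := 17 * JTP.tri j + k * j

lemma two_ee (k j : ℤ) : 2 * ee k j = 17 * (j * (j - 1)) + 2 * (k * j) := by
  unfold ee
  linear_combination 17 * JTP.two_tri j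

lemma ee_ge {k : ℤ} (h1 : 1 ≤ k) (h2 : k ≤ 16) (j : ℤ) : |j| ≤ ee k j := by
  have h := two_ee k j
  rcases le_or_gt 0 j with hj | hj
  · rw [abs_of_nonneg hj]
    rcases eq_or_lt_of_le hj with h0 | h0
    · subst h0
      simp at h
      omega
    · have h3 : 0 ≤ j * (j - 1) := mul_nonneg hj (by omega)
      have h4 : j ≤ k * j := by nlinarith
      linarith
  · rw [abs_of_neg hj]
    obtain ⟨m, rfl⟩ : ∃ m : ℤ, j = -m := ⟨-j, by ring⟩
    have hm : 1 ≤ m := by omega
    have h3 : 2 * m ≤ -m * (-m - 1) := by nlinarith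
    have h4 : k * m ≤ 16 * m := by nlinarith
    have h5 : k * -m = -(k * m) := by ring
    rw [h5] at h
    linarith

lemma ee_inj {k : ℤ} (h1 : 1 ≤ k) (h2 : k ≤ 16) {i j : ℤ} (h : ee k i = ee k j) : i = j := by
  have hi := two_ee k i
  have hj := two_ee k j
  have h3 : (i - j) * (17 * (i + j - 1) + 2 * k) = 0 := by
    rw [h] at hi
    linear_combination hj - hi
  rcases mul_eq_zero.1 h3 with h4 | h4
  · omega
  · omega

/-- the sign -/
def sgn (j : ℤ) : ℤ := if j % 2 = 0 then 1 else -1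

lemma sgn_eq (j : ℤ) : ((sgn j : ℤ) : ℂ) = (-1) ^ j := by
  unfold sgn
  split_ifs with h
  · have : Even j := Int.even_iff.2 h
    rw [this.neg_one_zpow]
    push_cast
    rfl
  · have : Odd j := by
      rw [← Int.not_even_iff_odd, Int.even_iff]
      exact h
    rw [this.neg_one_zpow]
    push_cast
    rfl

/-- the coefficients -/
noncomputable def cc (k : ℤ) (n : ℕ) : ℤ :=
  ∑ j ∈ Finset.Icc (-(n : ℤ)) n, if ee k j = n then sgn j else 0

lemma cc_ee {k : ℤ} (h1 : 1 ≤ k) (h2 : k ≤ 16) (j : ℤ) : cc k (ee k j).toNat = sgn j := by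
  have h3 := ee_ge h1 h2 j
  have h4 : ((ee k j).toNat : ℤ) = ee k j := Int.toNat_of_nonneg ((abs_nonneg j).trans h3)
  unfold cc
  rw [h4, Finset.sum_eq_single j]
  · rw [if_pos rfl]
  · intro i _ hi
    rw [if_neg fun h => hi (ee_inj h1 h2 h)]
  · intro hj
    exfalso
    apply hj
    rw [Finset.mem_Icc]
    exact abs_le.1 h3

lemma cc_zero {k : ℤ} {n : ℕ} (h : ∀ j : ℤ, ee k j ≠ n) : cc k n = 0 := by
  unfold cc
  exact Finset.sum_eq_zero fun j _ => if_neg (h j)

lemma abs_cc_le {k : ℤ} (h1 : 1 ≤ k) (h2 : k ≤ 16) (n : ℕ) : |cc k n| ≤ 1 := by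
  by_cases h : ∃ j : ℤ, ee k j = n
  · obtain ⟨j, hj⟩ := h
    have h3 := cc_ee h1 h2 j
    rw [hj, Int.toNat_natCast] at h3
    rw [h3]
    unfold sgn
    split_ifs <;> simp
  · push Not at h
    rw [cc_zero h]
    simp

/-- the expansion of the theta function -/
noncomputable def A (k : ℤ) (q : ℂ) : ℂ := ∑' n : ℕ, (cc k n : ℂ) * q ^ n

/-- its power series -/
noncomputable def PA (k : ℤ) : PowerSeries ℤ := PowerSeries.mk (cc k)

lemma rep_A {k : ℤ} (h1 : 1 ≤ k) (h2 : k ≤ 16) : Rep (A k) (PA k) := by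
  intro q hq
  have hs : Summable fun n : ℕ => (cc k n : ℂ) * q ^ n := by
    refine Summable.of_norm_bounded (summable_geometric_of_lt_one (norm_nonneg _) hq) fun n => ?_
    rw [norm_mul, norm_pow, Complex.norm_intCast]
    have h3 : |((cc k n : ℤ) : ℝ)| ≤ 1 := by exact_mod_cast abs_cc_le h1 h2 n
    calc |((cc k n : ℤ) : ℝ)| * ‖q‖ ^ n ≤ 1 * ‖q‖ ^ n := by gcongr
      _ = ‖q‖ ^ n := one_mul _
  have h3 := hs.hasSum
  refine h3.congr_fun ?_ |> fun x => x
  intro n
  unfold PA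
  rw [PowerSeries.coeff_map, PowerSeries.coeff_mk]
  rfl

lemma A_eq {k : ℤ} (h1 : 1 ≤ k) (h2 : k ≤ 16) {q : ℂ} (h0 : q ≠ 0) (hq : ‖q‖ < 1) :
    A k q = ∑' j : ℤ, JTP.te (q ^ 17) (q ^ k) j := by
  have hr := rep_A h1 h2 q hq
  have hinj : Function.Injective fun j : ℤ => (ee k j).toNat := by
    intro i j hij
    have h3 := ee_ge h1 h2 i
    have h4 := ee_ge h1 h2 j
    have h5 := abs_nonneg i
    have h6 := abs_nonneg j
    apply ee_inj h1 h2
    have hij' : (ee k i).toNat = (ee k j).toNat := hij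
    omega
  have h3 := (hinj.hasSum_iff (f := fun n : ℕ =>
    PowerSeries.coeff n (PowerSeries.map (Int.castRingHom ℂ) (PA k)) * q ^ n) (a := A k q) (by
      intro n hn
      unfold PA
      rw [PowerSeries.coeff_map, PowerSeries.coeff_mk, cc_zero]
      · simp
      · intro j hj
        exact hn ⟨j, by simp only [hj, Int.toNat_natCast]⟩)).2 hr
  rw [← h3.tsum_eq]
  refine tsum_congr fun j => ?_
  have h4 := ee_ge h1 h2 j
  have h5 : ((ee k j).toNat : ℤ) = ee k j := Int.toNat_of_nonneg ((abs_nonneg j).trans h4)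
  simp only [Function.comp_apply]
  unfold PA
  rw [PowerSeries.coeff_map, PowerSeries.coeff_mk, cc_ee h1 h2, eq_intCast, sgn_eq]
  unfold JTP.te
  rw [mul_assoc]
  congr 1
  rw [← zpow_natCast, h5]
  unfold ee
  rw [zpow_add₀ h0, zpow_mul, zpow_mul]
  norm_cast

lemma cc_k_zero (k : ℤ) : cc k 0 = 1 := by
  unfold cc ee JTP.tri sgn
  simp

lemma A_zero {k : ℤ} (h1 : 1 ≤ k) (h2 : k ≤ 16) : A k 0 = 1 := by
  have h := rep_A h1 h2 0 (by simp)
  have h3 := hasSum_single (f := fun n : ℕ =>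
    PowerSeries.coeff n (PowerSeries.map (Int.castRingHom ℂ) (PA k)) * (0 : ℂ) ^ n) 0 (by
      intro n hn
      simp [hn])
  rw [h.unique h3]
  unfold PA
  simp [PowerSeries.coeff_map, PowerSeries.coeff_mk, cc_k_zero]

lemma A_ne {k : ℤ} (h1 : 1 ≤ k) (h2 : k ≤ 16) {q : ℂ} (hq : ‖q‖ < 1) : A k q ≠ 0 := by
  by_cases h0 : q = 0
  · rw [h0, A_zero h1 h2]
    exact one_ne_zero
  · rw [A_eq h1 h2 h0 hq]
    have hq17 : ‖q ^ 17‖ < 1 := by
      rw [norm_pow]
      exact pow_lt_one₀ (norm_nonneg _) hq (by norm_num)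
    refine JTP.te_ne (pow_ne_zero _ h0) hq17 (zpow_ne_zero _ h0) ?_
    intro n hn
    have e1 : (q ^ 17) ^ n = q ^ (17 * n) := by
      rw [zpow_mul]
      norm_cast
    rw [e1] at hn
    have h3 := congrArg norm hn
    rw [norm_zpow, norm_zpow] at h3
    have h4 : 0 < ‖q‖ := norm_pos_iff.2 h0
    have h5 := zpow_right_injective₀ h4 hq.ne h3
    omega

/-- the power of `q` -/
noncomputable def EE (k : ℤ) (z : ℂ) : ℂ :=
  exp (Real.pi * I * ((k / 17 - 1 / 2) ^ 2 * (17 * z)))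

lemma th_q {k : ℤ} (h1 : 1 ≤ k) (h2 : k ≤ 16) {z : ℂ} (hz : 0 < z.im) :
    th k z = (-1) ^ k * EE k z * A k (qq z) := by
  unfold th
  rw [Ph_te, A_eq h1 h2 (qq_ne z) (norm_qq_lt hz)]
  have e1 : exp (2 * Real.pi * I * (17 * z)) = qq z ^ 17 := by
    unfold qq
    rw [← Complex.exp_nat_mul]
    congr 1
    push_cast
    ring
  have e2 : exp (2 * Real.pi * I * ((k : ℂ) / 17 * (17 * z) + 0)) = qq z ^ k := by
    unfold qq
    rw [← Complex.exp_int_mul]
    congr 1
    ring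
  rw [e1, e2]
  unfold EE
  rw [zero_mul, add_zero]
  ring

lemma EE_ne (k : ℤ) (z : ℂ) : EE k z ≠ 0 := Complex.exp_ne_zero _

/-- expansion of the first unit -/
noncomputable def x1 (q : ℂ) : ℂ := A 1 q * A 4 q * ((A 6 q)⁻¹ * (A 7 q)⁻¹)
/-- expansion of the second unit -/
noncomputable def x3 (q : ℂ) : ℂ := A 3 q * A 5 q * ((A 1 q)⁻¹ * (A 4 q)⁻¹)
/-- expansion of the third unit -/
noncomputable def x9 (q : ℂ) : ℂ := A 2 q * A 8 q * ((A 3 q)⁻¹ * (A 5 q)⁻¹)
/-- expansion of the fourth unit -/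
noncomputable def x27 (q : ℂ) : ℂ := A 6 q * A 7 q * ((A 2 q)⁻¹ * (A 8 q)⁻¹)

lemma quot {a b c d A B C D w : ℂ} (hc : c ≠ 0) (hd : d ≠ 0) (hC : C ≠ 0) (hD : D ≠ 0)
    (h : a * b = w * (c * d)) :
    (a * A) * (b * B) / ((c * C) * (d * D)) = w * (A * B * (C⁻¹ * D⁻¹)) := by
  rw [div_eq_iff (mul_ne_zero (mul_ne_zero hc hC) (mul_ne_zero hd hD))]
  field_simp
  linear_combination (A * B) * h

lemma al1_q {z : ℂ} (hz : 0 < z.im) : al 1 z = qq z ^ 2 * x1 (qq z) := by
  have hq := norm_qq_lt hz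
  have e : EE 1 z * EE 4 z = qq z ^ 2 * (EE 6 z * EE 7 z) := by
    unfold EE qq
    rw [← Complex.exp_nat_mul, ← Complex.exp_add, ← Complex.exp_add, ← Complex.exp_add]
    congr 1
    push_cast
    ring
  unfold al x1
  rw [mul_one, mul_one, mul_one, th_q (by norm_num) (by norm_num) hz,
    th_q (by norm_num) (by norm_num) hz, th_q (by norm_num) (by norm_num) hz,
    th_q (by norm_num) (by norm_num) hz]
  refine quot (mul_ne_zero (by norm_num) (EE_ne _ _)) (mul_ne_zero (by norm_num) (EE_ne _ _))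
    (A_ne (by norm_num) (by norm_num) hq) (A_ne (by norm_num) (by norm_num) hq) ?_
  norm_num
  linear_combination e

lemma al3_q {z : ℂ} (hz : 0 < z.im) : al 3 z = (qq z)⁻¹ * x3 (qq z) := by
  have hq := norm_qq_lt hz
  have e : EE 3 z * EE 5 z = (qq z)⁻¹ * (EE 1 z * EE 4 z) := by
    unfold EE qq
    rw [← Complex.exp_neg, ← Complex.exp_add, ← Complex.exp_add, ← Complex.exp_add]
    congr 1
    push_cast
    ring
  have e0 : al 3 z = -(th 3 z * th 5 z / (th 1 z * th 4 z)) := by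
    unfold al
    have e1 : (4 : ℤ) * 3 = -5 + 17 * 1 := by norm_num
    have e2 : (6 : ℤ) * 3 = 1 + 17 * 1 := by norm_num
    have e3 : (7 : ℤ) * 3 = 4 + 17 * 1 := by norm_num
    rw [e1, e2, e3, th_add_mul, th_add_mul, th_add_mul, th_neg]
    ring
  rw [e0]
  unfold x3
  rw [th_q (by norm_num) (by norm_num) hz,
    th_q (by norm_num) (by norm_num) hz, th_q (by norm_num) (by norm_num) hz,
    th_q (by norm_num) (by norm_num) hz]
  rw [quot (w := -(qq z)⁻¹) (mul_ne_zero (by norm_num) (EE_ne _ _))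
    (mul_ne_zero (by norm_num) (EE_ne _ _))
    (A_ne (by norm_num) (by norm_num) hq) (A_ne (by norm_num) (by norm_num) hq) ?_]
  · ring
  · norm_num
    linear_combination e

lemma al9_q {z : ℂ} (hz : 0 < z.im) : al 9 z = x9 (qq z) := by
  have hq := norm_qq_lt hz
  have e : EE 2 z * EE 8 z = EE 3 z * EE 5 z := by
    unfold EE
    rw [← Complex.exp_add, ← Complex.exp_add]
    congr 1
    push_cast
    ring
  have e0 : al 9 z = th 2 z * th 8 z / (th 3 z * th 5 z) := by
    unfold al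
    have e1 : (4 : ℤ) * 9 = 2 + 17 * 2 := by norm_num
    have e2 : (6 : ℤ) * 9 = 3 + 17 * 3 := by norm_num
    have e3 : (7 : ℤ) * 9 = -5 + 17 * 4 := by norm_num
    have e4 : (9 : ℤ) = -8 + 17 * 1 := by norm_num
    rw [e1, e2, e3, th_add_mul, th_add_mul, th_add_mul, th_neg, e4, th_add_mul, th_neg]
    rw [neg_mul, mul_neg, neg_div_neg_eq, mul_comm (th 8 z)]
  rw [e0]
  unfold x9
  rw [th_q (by norm_num) (by norm_num) hz,
    th_q (by norm_num) (by norm_num) hz, th_q (by norm_num) (by norm_num) hz,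
    th_q (by norm_num) (by norm_num) hz]
  rw [quot (w := 1) (mul_ne_zero (by norm_num) (EE_ne _ _))
    (mul_ne_zero (by norm_num) (EE_ne _ _))
    (A_ne (by norm_num) (by norm_num) hq) (A_ne (by norm_num) (by norm_num) hq) ?_]
  · ring
  · norm_num
    linear_combination e

lemma al27_q {z : ℂ} (hz : 0 < z.im) : al 27 z = -((qq z)⁻¹ * x27 (qq z)) := by
  have hq := norm_qq_lt hz
  have e : EE 6 z * EE 7 z = (qq z)⁻¹ * (EE 2 z * EE 8 z) := by
    unfold EE qq
    rw [← Complex.exp_neg, ← Complex.exp_add, ← Complex.exp_add, ← Complex.exp_add]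
    congr 1
    push_cast
    ring
  have e0 : al 27 z = th 6 z * th 7 z / (th 2 z * th 8 z) := by
    unfold al
    have e1 : (4 : ℤ) * 27 = 6 + 17 * 6 := by norm_num
    have e2 : (6 : ℤ) * 27 = -8 + 17 * 10 := by norm_num
    have e3 : (7 : ℤ) * 27 = 2 + 17 * 11 := by norm_num
    have e4 : (27 : ℤ) = -7 + 17 * 2 := by norm_num
    rw [e1, e2, e3, th_add_mul, th_add_mul, th_add_mul, th_neg, e4, th_add_mul, th_neg]
    rw [neg_mul, neg_mul, neg_div_neg_eq, mul_comm (th 7 z), mul_comm (th 8 z)]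
  rw [e0]
  unfold x27
  rw [th_q (by norm_num) (by norm_num) hz,
    th_q (by norm_num) (by norm_num) hz, th_q (by norm_num) (by norm_num) hz,
    th_q (by norm_num) (by norm_num) hz]
  rw [quot (w := -(qq z)⁻¹) (mul_ne_zero (by norm_num) (EE_ne _ _))
    (mul_ne_zero (by norm_num) (EE_ne _ _))
    (A_ne (by norm_num) (by norm_num) hq) (A_ne (by norm_num) (by norm_num) hq) ?_]
  · ring
  · norm_num
    linear_combination e

/-- the inverse power series -/
noncomputable def PI (k : ℤ) : PowerSeries ℤ := PowerSeries.invOfUnit (PA k) 1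

lemma PA_const (k : ℤ) : PowerSeries.constantCoeff (PA k) = 1 := by
  rw [← PowerSeries.coeff_zero_eq_constantCoeff_apply]
  unfold PA
  rw [PowerSeries.coeff_mk, cc_k_zero]

lemma PI_const (k : ℤ) : PowerSeries.constantCoeff (PI k) = 1 := by
  have h : PA k * PI k = 1 := PowerSeries.mul_invOfUnit _ _ (by rw [PA_const]; rfl)
  have h1 := congrArg PowerSeries.constantCoeff h
  rw [map_mul, PA_const, one_mul, map_one] at h1
  exact h1

lemma rep_AI {k : ℤ} (h1 : 1 ≤ k) (h2 : k ≤ 16) : Rep (fun q => (A k q)⁻¹) (PI k) :=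
  (rep_A h1 h2).inv (PowerSeries.mul_invOfUnit _ _ (by rw [PA_const]; rfl))
    fun _ hq => A_ne h1 h2 hq

/-- series of `x1` -/
noncomputable def P1 : PowerSeries ℤ := PA 1 * PA 4 * (PI 6 * PI 7)
/-- series of `x3` -/
noncomputable def P3 : PowerSeries ℤ := PA 3 * PA 5 * (PI 1 * PI 4)
/-- series of `x9` -/
noncomputable def P9 : PowerSeries ℤ := PA 2 * PA 8 * (PI 3 * PI 5)
/-- series of `x27` -/
noncomputable def P27 : PowerSeries ℤ := PA 6 * PA 7 * (PI 2 * PI 8)

lemma rep1 : Rep x1 P1 :=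
  ((rep_A (by norm_num) (by norm_num)).mul (rep_A (by norm_num) (by norm_num))).mul
    ((rep_AI (by norm_num) (by norm_num)).mul (rep_AI (by norm_num) (by norm_num)))

lemma rep3 : Rep x3 P3 :=
  ((rep_A (by norm_num) (by norm_num)).mul (rep_A (by norm_num) (by norm_num))).mul
    ((rep_AI (by norm_num) (by norm_num)).mul (rep_AI (by norm_num) (by norm_num)))

lemma rep9 : Rep x9 P9 :=
  ((rep_A (by norm_num) (by norm_num)).mul (rep_A (by norm_num) (by norm_num))).mul
    ((rep_AI (by norm_num) (by norm_num)).mul (rep_AI (by norm_num) (by norm_num)))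

lemma rep27 : Rep x27 P27 :=
  ((rep_A (by norm_num) (by norm_num)).mul (rep_A (by norm_num) (by norm_num))).mul
    ((rep_AI (by norm_num) (by norm_num)).mul (rep_AI (by norm_num) (by norm_num)))

lemma P1_const : PowerSeries.constantCoeff P1 = 1 := by
  unfold P1; simp [PA_const, PI_const]

lemma P3_const : PowerSeries.constantCoeff P3 = 1 := by
  unfold P3; simp [PA_const, PI_const]

lemma P9_const : PowerSeries.constantCoeff P9 = 1 := by
  unfold P9; simp [PA_const, PI_const]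

lemma P27_const : PowerSeries.constantCoeff P27 = 1 := by
  unfold P27; simp [PA_const, PI_const]

lemma x1_zero : x1 0 = 1 := by
  unfold x1
  simp [A_zero]

lemma x3_zero : x3 0 = 1 := by
  unfold x3
  simp [A_zero]

lemma x9_zero : x9 0 = 1 := by
  unfold x9
  simp [A_zero]

lemma x27_zero : x27 0 = 1 := by
  unfold x27
  simp [A_zero]

end Pool.Agent.N809.M17
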