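import Pool.Agent.N809.M17.QE
import Pool.Agent.N809.M17.CP

/-!
The relations between the units of level 17.
-/

set_option autoImplicit false

open Filter Topology Finset

namespace Pool.Agent.N809.M17

open Complex (exp I)
open Pool.Agent.W97.TW
open Pool.Agent.W97.MT (qq qq_ne norm_qq norm_qq_lt Rep RepC QV iI iI_pos iI_eventually tendsto_qq
  mul_zero_or)

/-! ### the cusp zero -/

/-- the limit of the theta series -/
lemma te_lim {x : ℂ} (hx : x ≠ 0) :
    Tendsto (fun q => ∑' j : ℤ, JTP.te q x j) (𝓝 0) (𝓝 (1 - x)) := by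
  have hg : ∑' j : ℤ, (if j = 0 then (1 : ℂ) else if j = 1 then -x else 0) = 1 - x := by
    rw [tsum_eq_sum (s := {0, 1})]
    · simp
      ring
    · intro j hj
      have h1 : j ≠ 0 ∧ j ≠ 1 := by simpa using hj
      rw [if_neg h1.1, if_neg h1.2]
  rw [← hg]
  refine tendsto_tsum_of_dominated_convergence
    (bound := fun j : ℤ => (1 / 2 : ℝ) ^ JTP.tri j * ‖x‖ ^ j)
    (JTP.summable_aux (by norm_num) (by norm_num) (norm_pos_iff.2 hx)) ?_ ?_
  · intro j
    have htri : 0 ≤ JTP.tri j := by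
      have := JTP.two_tri j
      rcases le_or_gt j 0 with h | h
      · nlinarith
      · nlinarith
    obtain ⟨m, hm⟩ := Int.eq_ofNat_of_zero_le htri
    unfold JTP.te
    rw [hm]
    have hc : Tendsto (fun q : ℂ => (-1) ^ j * q ^ ((m : ℕ) : ℤ) * x ^ j) (𝓝 0)
        (𝓝 ((-1) ^ j * (0 : ℂ) ^ ((m : ℕ) : ℤ) * x ^ j)) := by
      have : Continuous fun q : ℂ => (-1) ^ j * q ^ ((m : ℕ) : ℤ) * x ^ j := by
        simp only [zpow_natCast]
        fun_prop
      exact this.tendsto 0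
    convert hc using 2
    by_cases h0 : j = 0
    · subst h0
      have : m = 0 := by
        have : JTP.tri 0 = 0 := by unfold JTP.tri; simp
        omega
      subst this
      simp
    · by_cases h1 : j = 1
      · subst h1
        have : m = 0 := by
          have : JTP.tri 1 = 0 := by unfold JTP.tri; simp
          omega
        subst this
        simp
      · rw [if_neg h0, if_neg h1]
        have hm0 : m ≠ 0 := by
          rintro rfl
          have h2 := JTP.two_tri j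
          rw [hm] at h2
          have h3 : j * (j - 1) = 0 := by
            rw [← h2]; simp
          rcases mul_eq_zero.1 h3 with h4 | h4
          · exact h0 h4
          · exact h1 (by omega)
        rw [zpow_natCast, zero_pow hm0]
        ring
  · have hU : ∀ᶠ q : ℂ in 𝓝 0, ‖q‖ < 1 / 2 := by
      have := Metric.ball_mem_nhds (0 : ℂ) (show (0 : ℝ) < 1 / 2 by norm_num)
      filter_upwards [this] with q hq
      simpa using hq
    filter_upwards [hU] with q hq j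
    have htri : 0 ≤ JTP.tri j := by
      have := JTP.two_tri j
      rcases le_or_gt j 0 with h | h
      · nlinarith
      · nlinarith
    obtain ⟨m, hm⟩ := Int.eq_ofNat_of_zero_le htri
    rw [JTP.norm_te, hm, zpow_natCast, zpow_natCast]
    gcongr

/-- the leading coefficient of the theta function at the cusp zero -/
noncomputable def va (g : ℤ) : ℂ :=
  exp (Real.pi * I * (g / 17)) * (1 - exp (2 * Real.pi * I * (-(g / 17))))

lemma va_ne {g : ℤ} (hg : ¬ (17 : ℤ) ∣ g) : va g ≠ 0 := by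
  unfold va
  refine mul_ne_zero (Complex.exp_ne_zero _) ?_
  intro h
  have h1 : exp (2 * Real.pi * I * (-(g / 17))) = 1 := (sub_eq_zero.1 h).symm
  rw [Complex.exp_eq_one_iff] at h1
  obtain ⟨n, hn⟩ := h1
  have hp : (2 * (Real.pi : ℂ) * I) ≠ 0 := by simp [Real.pi_ne_zero]
  have h2 : (-((g : ℂ) / 17)) = n := by
    apply mul_left_cancel₀ hp
    linear_combination hn
  have h3 : (g : ℂ) = ((17 * -n : ℤ) : ℂ) := by
    push_cast
    linear_combination (-17 : ℂ) * h2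
  exact hg ⟨-n, by exact_mod_cast h3⟩

/-- the values of the theta functions near the cusp zero -/
lemma Ph0_lim (g : ℤ) :
    Tendsto (fun z : ℂ => Ph 0 (-(g / 17)) z * exp (-(Real.pi * I * (z / 4)))) iI (𝓝 (va g)) := by
  have h1 := (te_lim (x := exp (2 * Real.pi * I * (-(g / 17)))) (Complex.exp_ne_zero _)).comp
    tendsto_qq
  have h2 := h1.const_mul (exp (Real.pi * I * (g / 17)))
  refine h2.congr fun z => ?_
  rw [Ph_te]
  simp only [Function.comp_apply]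
  have e1 : exp (2 * Real.pi * I * z) = qq z := rfl
  have e2 : exp (2 * Real.pi * I * (0 * z + -((g : ℂ) / 17))) =
      exp (2 * Real.pi * I * (-(g / 17))) := by rw [zero_mul, zero_add]
  rw [e1, e2]
  have e3 : exp (Real.pi * I * ((0 - 1 / 2) ^ 2 * z + -((g : ℂ) / 17) * (0 - 1))) *
      exp (-(Real.pi * I * (z / 4))) = exp (Real.pi * I * (g / 17)) := by
    rw [← Complex.exp_add]
    congr 1
    ring
  linear_combination (-∑' j : ℤ, JTP.te (qq z) (exp (2 * Real.pi * I * (-(g / 17)))) j) * e3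

lemma th_W : ∃ J : ℂ → ℂ, (∀ z : ℂ, 0 < z.im → J z ≠ 0) ∧ ∀ (g : ℤ) (z : ℂ), 0 < z.im →
    th g (-1 / (17 * z)) = (-1) ^ g * (J z * Ph 0 (-(g / 17)) z) := by
  obtain ⟨J, hJ, hP⟩ := Ph_moebius (a := 0) (b := -1) (c := 1) (d := 0) (by norm_num)
  refine ⟨J, hJ, fun g z hz => ?_⟩
  unfold th
  have h1 := hP ((g : ℂ) / 17) 0 z hz
  have hz0 : z ≠ 0 := by
    rintro rfl
    simp at hz
  have e1 : (((0 : ℤ) : ℂ) * z + ((-1 : ℤ) : ℂ)) / (((1 : ℤ) : ℂ) * z + ((0 : ℤ) : ℂ)) =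
      17 * (-1 / (17 * z)) := by
    push_cast
    rw [zero_mul, zero_add, one_mul, add_zero]
    field_simp
  have e2 : (g : ℂ) / 17 * ((0 : ℤ) : ℂ) + 0 * ((1 : ℤ) : ℂ) = 0 := by push_cast; ring
  have e3 : (g : ℂ) / 17 * ((-1 : ℤ) : ℂ) + 0 * ((0 : ℤ) : ℂ) = -(g / 17) := by push_cast; ring
  rw [e1, e2, e3] at h1
  rw [h1]

/-- the value of the unit at the cusp zero -/
noncomputable def v0 (g : ℤ) : ℂ := va g * va (4 * g) / (va (6 * g) * va (7 * g))

lemma v0_ne {g : ℤ} (hg : ¬ (17 : ℤ) ∣ g) : v0 g ≠ 0 := by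
  unfold v0
  exact div_ne_zero (mul_ne_zero (va_ne hg) (va_ne (not_dvd_mul hg (by norm_num))))
    (mul_ne_zero (va_ne (not_dvd_mul hg (by norm_num))) (va_ne (not_dvd_mul hg (by norm_num))))

lemma al_lim {g : ℤ} (hg : ¬ (17 : ℤ) ∣ g) :
    Tendsto (fun z : ℂ => al g (-1 / (17 * z))) iI (𝓝 (v0 g)) := by
  obtain ⟨J, hJ, hth⟩ := th_W
  have h1 := ((Ph0_lim g).mul (Ph0_lim (4 * g))).div ((Ph0_lim (6 * g)).mul (Ph0_lim (7 * g)))
    (mul_ne_zero (va_ne (not_dvd_mul hg (by norm_num))) (va_ne (not_dvd_mul hg (by norm_num))))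
  refine h1.congr' (iI_pos.mono fun z hz => ?_)
  have hJz := hJ z hz
  unfold al
  simp only [Pi.div_apply]
  rw [hth _ z hz, hth _ z hz, hth _ z hz, hth _ z hz]
  have hs : ((-1 : ℂ)) ^ g * (-1) ^ (4 * g) = (-1) ^ (6 * g) * (-1) ^ (7 * g) := by
    rw [← zpow_add₀ (by norm_num), ← zpow_add₀ (by norm_num)]
    have : 6 * g + 7 * g = (g + 4 * g) + 2 * (4 * g) := by ring
    rw [this, zpow_add₀ (by norm_num) (g + 4 * g), zpow_mul (-1 : ℂ) 2]
    norm_num
  have hs1 : ((-1 : ℂ)) ^ (6 * g) ≠ 0 := zpow_ne_zero _ (by norm_num)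
  have hs2 : ((-1 : ℂ)) ^ (7 * g) ≠ 0 := zpow_ne_zero _ (by norm_num)
  have he : exp (-(Real.pi * I * (z / 4))) ≠ 0 := Complex.exp_ne_zero _
  generalize exp (-(Real.pi * I * (z / 4))) = w at he
  have e6 : Ph 0 (-(g / 17)) z * w * (Ph 0 (-((4 * g : ℤ) / 17)) z * w) =
      (w * w) * (Ph 0 (-(g / 17)) z * Ph 0 (-((4 * g : ℤ) / 17)) z) := by ring
  have e7 : Ph 0 (-((6 * g : ℤ) / 17)) z * w * (Ph 0 (-((7 * g : ℤ) / 17)) z * w) =
      (w * w) * (Ph 0 (-((6 * g : ℤ) / 17)) z * Ph 0 (-((7 * g : ℤ) / 17)) z) := by ring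
  rw [e6, e7, mul_div_mul_left _ _ (mul_ne_zero he he)]
  have e8 : (-1 : ℂ) ^ g * (J z * Ph 0 (-(g / 17)) z) *
      ((-1) ^ (4 * g) * (J z * Ph 0 (-((4 * g : ℤ) / 17)) z)) =
      ((-1) ^ (6 * g) * (-1) ^ (7 * g) * (J z * J z)) *
        (Ph 0 (-(g / 17)) z * Ph 0 (-((4 * g : ℤ) / 17)) z) := by
    linear_combination (J z * J z * (Ph 0 (-(g / 17)) z * Ph 0 (-((4 * g : ℤ) / 17)) z)) * hs
  have e9 : (-1 : ℂ) ^ (6 * g) * (J z * Ph 0 (-((6 * g : ℤ) / 17)) z) *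
      ((-1) ^ (7 * g) * (J z * Ph 0 (-((7 * g : ℤ) / 17)) z)) =
      ((-1) ^ (6 * g) * (-1) ^ (7 * g) * (J z * J z)) *
        (Ph 0 (-((6 * g : ℤ) / 17)) z * Ph 0 (-((7 * g : ℤ) / 17)) z) := by
    ring
  rw [e8, e9, mul_div_mul_left _ _ (mul_ne_zero (mul_ne_zero hs1 hs2) (mul_ne_zero hJz hJz))]

lemma bdd_of_tendsto {g : ℂ → ℂ} {v : ℂ} (h : Tendsto g iI (𝓝 v)) :
    ∃ B T : ℝ, 0 ≤ T ∧ ∀ z : ℂ, T < z.im → ‖g z‖ ≤ B := by
  have h1 : ∀ᶠ z in iI, ‖g z‖ ≤ ‖v‖ + 1 :=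
    h.norm.eventually (eventually_le_nhds (show ‖v‖ < ‖v‖ + 1 by linarith))
  obtain ⟨T, hT, h2⟩ := iI_eventually.1 h1
  exact ⟨_, T, hT, h2⟩

/-! ### the relation `al g + al (9 g) = 1` -/

/-- the defect -/
noncomputable def rd (g : ℤ) (z : ℂ) : ℂ := al g z + al (9 * g) z - 1

lemma rd_gamma {a b c d : ℤ} (h : a * d - b * (17 * c) = 1) (g : ℤ) {z : ℂ} (hz : 0 < z.im) :
    rd g ((a * z + b) / (17 * c * z + d)) = rd (a * g) z := by
  unfold rd
  rw [al_gamma h g hz, al_gamma h (9 * g) hz]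
  have e : a * (9 * g) = 9 * (a * g) := by ring
  rw [e]

lemma rd_cases (a : ℤ) (ha : ¬ (17 : ℤ) ∣ a) :
    (∀ z, rd a z = rd 1 z ∧ rd (3 * a) z = rd 3 z) ∨ (∀ z, rd a z = rd 3 z ∧ rd (3 * a) z = rd 1 z) := by
  have hcong : ∀ (g g' : ℤ), (17 : ℤ) ∣ g' - g → ∀ z, rd g' z = rd g z := by
    intro g g' h z
    unfold rd
    rw [al_congr h, al_congr (g := 9 * g) (g' := 9 * g') (by
      have : 9 * g' - 9 * g = 9 * (g' - g) := by ring
      rw [this]
      exact dvd_mul_of_dvd_right h 9)]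
  have hneg : ∀ (g : ℤ) (z : ℂ), rd (-g) z = rd g z := by
    intro g z
    unfold rd
    rw [al_neg, show (9 : ℤ) * -g = -(9 * g) by ring, al_neg]
  have h4 : ∀ (g : ℤ) (z : ℂ), rd (4 * g) z = rd g z := by
    intro g z
    unfold rd
    rw [al_four, show (9 : ℤ) * (4 * g) = 4 * (9 * g) by ring, al_four]
  have h9 : ∀ (g : ℤ) (z : ℂ), rd (9 * g) z = rd g z := by
    intro g z
    unfold rd
    have : al (9 * (9 * g)) z = al g z := by
      rw [show (9 : ℤ) * (9 * g) = -(4 * g) + 17 * (5 * g) by ring, al_add, al_neg, al_four]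
    rw [this]
    ring
  have key : ∀ r : ℤ, r = 1 ∨ r = 3 → ∀ k : ℕ, (∀ z, rd (3 ^ (2 * k) * r) z = rd r z) := by
    intro r _ k
    induction k with
    | zero => intro z; simp
    | succ k ih =>
      intro z
      have e : (3 : ℤ) ^ (2 * (k + 1)) * r = 9 * (3 ^ (2 * k) * r) := by ring
      rw [e, h9, ih]
  have hA : ∀ a : ZMod 17, a ≠ 0 → ∃ k : Fin 8, a = 3 ^ (2 * k.val) ∨ a = 3 ^ (2 * k.val + 1) := by
    decide
  have ha' : ((a : ℤ) : ZMod 17) ≠ 0 := fun h => ha ((ZMod.intCast_zmod_eq_zero_iff_dvd a 17).1 h)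
  obtain ⟨k, hk⟩ := hA (a : ZMod 17) ha'
  have hdvd : ∀ m : ℤ, (a : ZMod 17) = (m : ZMod 17) → (17 : ℤ) ∣ a - m := by
    intro m hm
    have : ((a - m : ℤ) : ZMod 17) = 0 := by push_cast; rw [hm, sub_self]
    exact (ZMod.intCast_zmod_eq_zero_iff_dvd _ 17).1 this
  rcases hk with hk | hk
  · left
    intro z
    have h1 := hdvd (3 ^ (2 * k.val) * 1) (by rw [hk]; push_cast; ring)
    have h2 : (17 : ℤ) ∣ 3 * a - 3 ^ (2 * k.val) * 3 := by
      have e : 3 * a - 3 ^ (2 * k.val) * 3 = 3 * (a - 3 ^ (2 * k.val) * 1) := by ring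
      rw [e]
      exact dvd_mul_of_dvd_right h1 3
    exact ⟨by rw [hcong _ _ h1, key 1 (Or.inl rfl)], by rw [hcong _ _ h2, key 3 (Or.inr rfl)]⟩
  · right
    intro z
    have h1 := hdvd (3 ^ (2 * k.val) * 3) (by rw [hk]; push_cast; ring)
    have h2 : (17 : ℤ) ∣ 3 * a - 3 ^ (2 * (k.val + 1)) * 1 := by
      have e : 3 * a - 3 ^ (2 * (k.val + 1)) * 1 = 3 * (a - 3 ^ (2 * k.val) * 3) := by ring
      rw [e]
      exact dvd_mul_of_dvd_right h1 3
    exact ⟨by rw [hcong _ _ h1, key 3 (Or.inr rfl)], by rw [hcong _ _ h2, key 1 (Or.inl rfl)]⟩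

lemma not_dvd_of_det {a b c d : ℤ} (h : a * d - b * (17 * c) = 1) : ¬ (17 : ℤ) ∣ a := by
  rintro ⟨k, rfl⟩
  have : (17 : ℤ) ∣ 1 := ⟨k * d - b * c, by linear_combination -h⟩
  norm_num at this

/-- the first relation -/
theorem rel_zero : ∀ z : ℂ, 0 < z.im → rd 1 z = 0 ∧ rd 3 z = 0 := by
  have n1 : ¬ (17 : ℤ) ∣ 1 := by norm_num
  have n3 : ¬ (17 : ℤ) ∣ 3 := by norm_num
  have n9 : ¬ (17 : ℤ) ∣ 9 := by norm_num
  have n27 : ¬ (17 : ℤ) ∣ 27 := by norm_num
  have d1 : ∀ z : ℂ, 0 < z.im → DifferentiableAt ℂ (rd 1) z := fun z hz =>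
    ((al_diff n1 hz).add (al_diff (g := 9 * 1) (by norm_num) hz)).sub_const 1
  have d3 : ∀ z : ℂ, 0 < z.im → DifferentiableAt ℂ (rd 3) z := fun z hz =>
    ((al_diff n3 hz).add (al_diff (g := 9 * 3) (by norm_num) hz)).sub_const 1
  -- at infinity
  have q1 : QV (rd 1) 0 := by
    have h1 : QV (fun z => qq z ^ 2 * x1 (qq z) + x9 (qq z) - 1) 0 := by
      refine (((QV.qq'.pow 2).mul (QV.comp rep1.analyticAt_zero)).add
        (QV.comp rep9.analyticAt_zero)).sub (QV.const 1) |>.of_val ?_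
      rw [x9_zero]
      norm_num
    refine h1.of_eq (iI_pos.mono fun z hz => ?_)
    unfold rd
    rw [al1_q hz, mul_one, al9_q hz]
  obtain ⟨v3, q3⟩ : ∃ v, QV (rd 3) v := by
    have hd : PowerSeries.X ^ 1 ∣ P3 - P27 := by
      rw [pow_one, PowerSeries.X_dvd_iff, map_sub, P3_const, P27_const, sub_self]
    obtain ⟨k, hk, h1⟩ := (rep3.sub rep27).of_dvd hd
    refine ⟨_, ((QV.comp hk).sub (QV.const 1)).of_eq (iI_pos.mono fun z hz => ?_)⟩
    have h2 := h1 (qq z) (norm_qq_lt hz)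
    have hq := qq_ne z
    unfold rd
    rw [al3_q hz, show (9 : ℤ) * 3 = 27 by norm_num, al27_q hz]
    field_simp
    linear_combination h2
  -- the constant principle
  obtain ⟨C, hC⟩ := CP.s_cp (fun z => rd 1 z * rd 3 z)
    (fun z hz => ((d1 z hz).mul (d3 z hz)).differentiableWithinAt)
    (fun a b c d h z hz => by
      rw [rd_gamma h 1 hz, rd_gamma h 3 hz, mul_one, mul_comm a 3]
      rcases rd_cases a (not_dvd_of_det h) with h1 | h1
      · rw [(h1 z).1, (h1 z).2]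
      · rw [(h1 z).1, (h1 z).2, mul_comm])
    (q1.mul q3).bounded'
    (bdd_of_tendsto (v := (v0 1 + v0 (9 * 1) - 1) * (v0 3 + v0 (9 * 3) - 1))
      ((((al_lim n1).add (al_lim (g := 9 * 1) (by norm_num))).sub_const 1).mul
      (((al_lim n3).add (al_lim (g := 9 * 3) (by norm_num))).sub_const 1)))
  have hC0 : C = 0 := by
    have h1 : QV (fun z => rd 1 z * rd 3 z) C := (QV.const C).of_eq (iI_pos.mono fun z hz => hC z hz)
    have h2 := h1.val_unique (q1.mul q3)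
    rw [h2, zero_mul]
  have hdet : (3 : ℤ) * 6 - 1 * (17 * 1) = 1 := by norm_num
  have hm : ∀ z : ℂ, 0 < z.im → 0 < (((3 : ℤ) * z + (1 : ℤ)) / (17 * (1 : ℤ) * z + (6 : ℤ)) : ℂ).im := by
    intro z hz
    have := (im_moebius hdet hz).1
    push_cast at this ⊢
    rw [mul_one]
    exact this
  rcases mul_zero_or d1 d3 (fun z hz => by rw [hC z hz, hC0]) with h1 | h1
  · intro z hz
    refine ⟨h1 z hz, ?_⟩
    have h2 := rd_gamma hdet 1 hz
    rw [h1 _ (hm z hz)] at h2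
    rw [show (3 : ℤ) * 1 = 3 by norm_num] at h2
    exact h2.symm
  · intro z hz
    refine ⟨?_, h1 z hz⟩
    have h2 := rd_gamma hdet 3 hz
    rw [h1 _ (hm z hz)] at h2
    rcases rd_cases 3 n3 with h3 | h3
    · rw [(h3 z).2, h1 z hz] at h2
      rw [← (h3 z).1]
      exact h1 z hz
    · rw [(h3 z).2] at h2
      exact h2.symm

end Pool.Agent.N809.M17
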