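import Pool.Agent.N809.M17.Th

/-!
The theta functions of level 17 and the units of the modular curve.
-/

set_option autoImplicit false

open Filter Topology

namespace Pool.Agent.N809.M17

open Complex (exp I)
open Pool.Agent.W97.TW

/-- the theta function as a sum of the terms of the triple product -/
lemma Ph_te (a b τ : ℂ) : Ph a b τ = exp (Real.pi * I * ((a - 1 / 2) ^ 2 * τ + b * (a - 1))) *
    ∑' j : ℤ, JTP.te (exp (2 * Real.pi * I * τ)) (exp (2 * Real.pi * I * (a * τ + b))) j := by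
  unfold Ph jacobiTheta₂
  congr 1
  refine tsum_congr fun n => ?_
  unfold jacobiTheta₂_term JTP.te
  have h1 : (2 : ℂ) * (JTP.tri n : ℤ) = n * (n - 1) := by
    exact_mod_cast congrArg (Int.cast : ℤ → ℂ) (JTP.two_tri n)
  rw [← Complex.exp_int_mul, ← Complex.exp_int_mul]
  have h2 : ((-1 : ℂ)) ^ n = exp (n * (Real.pi * I)) := by
    rw [Complex.exp_int_mul, Complex.exp_pi_mul_I]
  rw [h2, ← Complex.exp_add, ← Complex.exp_add]
  congr 1
  linear_combination (-(Real.pi : ℂ) * I * τ) * h1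

lemma exp_tau_norm {τ : ℂ} (hτ : 0 < τ.im) : ‖exp (2 * Real.pi * I * τ)‖ < 1 := by
  rw [Complex.norm_exp, Real.exp_lt_one_iff]
  have h1 : (2 * Real.pi * I * τ).re = -(2 * Real.pi * τ.im) := by
    simp [Complex.mul_re, Complex.mul_im]
  rw [h1]
  have := Real.pi_pos
  have := mul_pos this hτ
  linarith

/-- the theta function has no zeros for a real characteristic `a` which is not an integer -/
lemma Ph_ne {a : ℝ} (ha : ∀ n : ℤ, a ≠ n) {τ : ℂ} (hτ : 0 < τ.im) : Ph a 0 τ ≠ 0 := by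
  rw [Ph_te]
  refine mul_ne_zero (Complex.exp_ne_zero _) ?_
  refine JTP.te_ne (Complex.exp_ne_zero _) (exp_tau_norm hτ) (Complex.exp_ne_zero _) ?_
  intro n h
  rw [← Complex.exp_int_mul, Complex.exp_eq_exp_iff_exists_int] at h
  obtain ⟨m, hm⟩ := h
  have hp : (2 * (Real.pi : ℂ) * I) ≠ 0 := by
    simp [Real.pi_ne_zero]
  have h1 : ((a - n : ℝ) : ℂ) * τ = m := by
    apply mul_left_cancel₀ hp
    push_cast
    linear_combination hm
  have h2 := congrArg Complex.im h1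
  rw [Complex.im_ofReal_mul, Complex.intCast_im] at h2
  have h3 : a - n ≠ 0 := sub_ne_zero.2 (ha n)
  rcases mul_eq_zero.1 h2 with h4 | h4
  · exact h3 h4
  · exact hτ.ne' h4

/-- the signed theta function of level 17 -/
noncomputable def th (g : ℤ) (z : ℂ) : ℂ := (-1) ^ g * Ph (g / 17) 0 (17 * z)

lemma th_add (g : ℤ) (z : ℂ) : th (g + 17) z = th g z := by
  unfold th
  have e1 : (((g + 17 : ℤ)) : ℂ) / 17 = (g : ℂ) / 17 + 1 := by
    push_cast
    ring
  rw [e1, Ph_add_one, zpow_add₀ (by norm_num)]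
  have e2 : ((-1 : ℂ)) ^ (17 : ℤ) = -1 := by norm_num
  rw [e2, mul_zero, neg_zero, Complex.exp_zero]
  ring

lemma th_add_mul (g m : ℤ) (z : ℂ) : th (g + 17 * m) z = th g z := by
  induction m using Int.induction_on with
  | zero => simp
  | succ n ih =>
    rw [← ih, ← th_add (g + 17 * (n : ℤ))]
    congr 1
    ring
  | pred n ih =>
    rw [← ih, ← th_add (g + 17 * (-(n : ℤ) - 1))]
    congr 1
    ring

lemma th_neg (g : ℤ) (z : ℂ) : th (-g) z = -th g z := by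
  unfold th
  have e1 : (((-g : ℤ)) : ℂ) / 17 = -((g : ℂ) / 17) := by
    push_cast
    ring
  have e2 : Ph (-((g : ℂ) / 17)) 0 (17 * z) = -Ph ((g : ℂ) / 17) 0 (17 * z) := by
    rw [← Ph_neg, neg_zero]
  have e3 : ((-1 : ℂ)) ^ (-g) = (-1) ^ g := by
    rw [zpow_neg, ← inv_zpow]
    norm_num
  rw [e1, e2, e3]
  ring

lemma im17 {z : ℂ} (hz : 0 < z.im) : 0 < (17 * z).im := by
  have : (17 * z).im = 17 * z.im := by simp
  rw [this]
  linarith

lemma th_ne {g : ℤ} (hg : ¬ (17 : ℤ) ∣ g) {z : ℂ} (hz : 0 < z.im) : th g z ≠ 0 := by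
  unfold th
  refine mul_ne_zero (zpow_ne_zero _ (by norm_num)) ?_
  have h := Ph_ne (a := (g : ℝ) / 17) (fun n hn => hg ⟨n, ?_⟩) (im17 hz)
  · push_cast at h
    exact h
  · have h1 : (g : ℝ) = 17 * n := by linarith
    exact_mod_cast h1

/-- the action of `Γ_0(17)` -/
lemma th_gamma {a b c d : ℤ} (h : a * d - b * (17 * c) = 1) :
    ∃ (J : ℂ → ℂ) (E : ℂ), E ≠ 0 ∧ E ^ (17 : ℤ) = 1 ∧ (∀ z : ℂ, 0 < z.im → J z ≠ 0) ∧
      ∀ (g : ℤ) (z : ℂ), 0 < z.im →
        th g ((a * z + b) / (17 * c * z + d)) = J z * E ^ (g ^ 2) * th (a * g) z := by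
  have h' : a * d - (17 * b) * c = 1 := by linarith
  obtain ⟨J, hJ, hP⟩ := Ph_moebius h'
  have hneg : ((-1 : ℂ)) = exp (Real.pi * I) := Complex.exp_pi_mul_I.symm
  refine ⟨fun z => J (17 * z), exp (Real.pi * I * ((a * b : ℤ) / 17 + 1 + a + b)),
    Complex.exp_ne_zero _, ?_, fun z hz => hJ _ (im17 hz), ?_⟩
  · rw [← Complex.exp_int_mul]
    have hev : Even ((a + 1) * (b + 1)) := by
      by_contra hodd
      rw [Int.not_even_iff_odd, Int.odd_mul] at hodd
      obtain ⟨⟨k, hk⟩, ⟨l, hl⟩⟩ := hodd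
      have h1 : a = 2 * k := by linarith
      have h2 : b = 2 * l := by linarith
      rw [h1, h2] at h
      have h3 : 2 * (k * d - l * (17 * c)) = 1 := by linear_combination h
      omega
    obtain ⟨k, hk⟩ := hev
    have hk' : ((a : ℂ) + 1) * (b + 1) = k + k := by exact_mod_cast hk
    have e : ((17 : ℤ) : ℂ) * (Real.pi * I * (((a * b : ℤ) : ℂ) / 17 + 1 + a + b)) =
        (k + 8 + 8 * a + 8 * b : ℤ) * (2 * Real.pi * I) := by
      push_cast
      linear_combination (Real.pi : ℂ) * I * hk'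
    rw [e, Complex.exp_int_mul_two_pi_mul_I]
  · intro g z hz
    unfold th
    have h1 := hP ((g : ℂ) / 17) 0 (17 * z) (im17 hz)
    have e1 : (a * (17 * z) + ((17 * b : ℤ) : ℂ)) / (c * (17 * z) + d) =
        17 * ((a * z + b) / (17 * c * z + d)) := by
      push_cast
      rw [mul_div_assoc']
      congr 1 <;> ring
    rw [e1] at h1
    rw [h1]
    have e2 : (g : ℂ) / 17 * a + 0 * c = ((a * g : ℤ) : ℂ) / 17 := by
      push_cast
      ring
    have e3 : (g : ℂ) / 17 * ((17 * b : ℤ) : ℂ) + 0 * d = 0 + ((g * b : ℤ) : ℂ) := by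
      push_cast
      ring
    rw [e2, e3, Ph_add_int]
    have key : ((-1 : ℂ)) ^ g * exp (Real.pi * I * (((g * b : ℤ) : ℂ) * (((a * g : ℤ) : ℂ) / 17 - 1))) =
        exp (Real.pi * I * ((a * b : ℤ) / 17 + 1 + a + b)) ^ (g ^ 2) * (-1) ^ (a * g) := by
      have e4 : ((-1 : ℂ)) ^ g = exp (g * (Real.pi * I)) := by
        rw [Complex.exp_int_mul, Complex.exp_pi_mul_I]
      have e5 : ((-1 : ℂ)) ^ (a * g) = exp ((a * g : ℤ) * (Real.pi * I)) := by
        rw [Complex.exp_int_mul, Complex.exp_pi_mul_I]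
      rw [e4, e5, ← Complex.exp_int_mul, ← Complex.exp_add, ← Complex.exp_add,
        Complex.exp_eq_exp_iff_exists_int]
      obtain ⟨k, hk⟩ : Even (g * (g - 1)) := Int.even_mul_pred_self g
      have hk' : (g : ℂ) * (g - 1) = k + k := by exact_mod_cast hk
      refine ⟨-(k + a * k + a * g + b * k + b * g), ?_⟩
      push_cast
      linear_combination (-(Real.pi : ℂ) * I * (1 + a + b)) * hk'
    linear_combination (J (17 * z) * Ph (((a * g : ℤ) : ℂ) / 17) 0 (17 * z)) * key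

/-- the units -/
noncomputable def al (g : ℤ) (z : ℂ) : ℂ := th g z * th (4 * g) z / (th (6 * g) z * th (7 * g) z)

lemma al_gamma {a b c d : ℤ} (h : a * d - b * (17 * c) = 1) (g : ℤ) {z : ℂ} (hz : 0 < z.im) :
    al g ((a * z + b) / (17 * c * z + d)) = al (a * g) z := by
  obtain ⟨J, E, hE0, hE, hJ, hg⟩ := th_gamma h
  have h0 := hJ z hz
  unfold al
  rw [hg _ z hz, hg _ z hz, hg _ z hz, hg _ z hz]
  have e1 : a * (4 * g) = 4 * (a * g) := by ring
  have e2 : a * (6 * g) = 6 * (a * g) := by ring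
  have e3 : a * (7 * g) = 7 * (a * g) := by ring
  rw [e1, e2, e3]
  have e4 : E ^ (g ^ 2) * E ^ ((4 * g) ^ 2) = E ^ ((6 * g) ^ 2) * E ^ ((7 * g) ^ 2) := by
    rw [← zpow_add₀ hE0, ← zpow_add₀ hE0]
    have e5 : (6 * g) ^ 2 + (7 * g) ^ 2 = (g ^ 2 + (4 * g) ^ 2) + 17 * (4 * g ^ 2) := by ring
    rw [e5, zpow_add₀ hE0 (g ^ 2 + (4 * g) ^ 2), zpow_mul, hE, one_zpow, mul_one]
  have hd : J z * J z * (E ^ ((6 * g) ^ 2) * E ^ ((7 * g) ^ 2)) ≠ 0 :=
    mul_ne_zero (mul_ne_zero h0 h0) (mul_ne_zero (zpow_ne_zero _ hE0) (zpow_ne_zero _ hE0))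
  have e6 : J z * E ^ (g ^ 2) * th (a * g) z * (J z * E ^ ((4 * g) ^ 2) * th (4 * (a * g)) z) =
      (J z * J z * (E ^ ((6 * g) ^ 2) * E ^ ((7 * g) ^ 2))) *
        (th (a * g) z * th (4 * (a * g)) z) := by
    rw [← e4]
    ring
  have e7 : J z * E ^ ((6 * g) ^ 2) * th (6 * (a * g)) z *
      (J z * E ^ ((7 * g) ^ 2) * th (7 * (a * g)) z) =
      (J z * J z * (E ^ ((6 * g) ^ 2) * E ^ ((7 * g) ^ 2))) *
        (th (6 * (a * g)) z * th (7 * (a * g)) z) := by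
    ring
  rw [e6, e7, mul_div_mul_left _ _ hd]

lemma al_add (g m : ℤ) (z : ℂ) : al (g + 17 * m) z = al g z := by
  unfold al
  have e1 : 4 * (g + 17 * m) = 4 * g + 17 * (4 * m) := by ring
  have e2 : 6 * (g + 17 * m) = 6 * g + 17 * (6 * m) := by ring
  have e3 : 7 * (g + 17 * m) = 7 * g + 17 * (7 * m) := by ring
  rw [e1, e2, e3, th_add_mul, th_add_mul, th_add_mul, th_add_mul]

lemma al_congr {g g' : ℤ} (h : (17 : ℤ) ∣ g' - g) (z : ℂ) : al g' z = al g z := by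
  obtain ⟨m, hm⟩ := h
  have : g' = g + 17 * m := by linarith
  rw [this, al_add]

lemma al_neg (g : ℤ) (z : ℂ) : al (-g) z = al g z := by
  unfold al
  have e1 : 4 * (-g) = -(4 * g) := by ring
  have e2 : 6 * (-g) = -(6 * g) := by ring
  have e3 : 7 * (-g) = -(7 * g) := by ring
  rw [e1, e2, e3, th_neg, th_neg, th_neg, th_neg]
  ring

lemma al_four (g : ℤ) (z : ℂ) : al (4 * g) z = al g z := by
  unfold al
  have e1 : 4 * (4 * g) = -g + 17 * g := by ring
  have e2 : 6 * (4 * g) = 7 * g + 17 * g := by ring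
  have e3 : 7 * (4 * g) = -(6 * g) + 17 * (2 * g) := by ring
  rw [e1, e2, e3, th_add_mul, th_add_mul, th_add_mul, th_neg, th_neg]
  rw [mul_neg, mul_neg, neg_div_neg_eq, mul_comm (th (4 * g) z), mul_comm (th (7 * g) z)]

lemma not_dvd_mul {g : ℤ} (hg : ¬ (17 : ℤ) ∣ g) {k : ℤ} (hk : ¬ (17 : ℤ) ∣ k) :
    ¬ (17 : ℤ) ∣ k * g := by
  intro h
  have hp : Prime (17 : ℤ) := by
    rw [Int.prime_iff_natAbs_prime]
    norm_num
  rcases hp.dvd_or_dvd h with h1 | h1
  · exact hk h1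
  · exact hg h1

lemma al_ne {g : ℤ} (hg : ¬ (17 : ℤ) ∣ g) {z : ℂ} (hz : 0 < z.im) : al g z ≠ 0 := by
  unfold al
  refine div_ne_zero (mul_ne_zero (th_ne hg hz) (th_ne (not_dvd_mul hg (by norm_num)) hz))
    (mul_ne_zero (th_ne (not_dvd_mul hg (by norm_num)) hz) (th_ne (not_dvd_mul hg (by norm_num)) hz))

/-- the product relation -/
lemma al_prod {g : ℤ} (hg : ¬ (17 : ℤ) ∣ g) {z : ℂ} (hz : 0 < z.im) :
    al g z * al (3 * g) z * al (9 * g) z * al (27 * g) z = -1 := by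
  unfold al
  have n1 := th_ne hg hz
  have n2 := th_ne (not_dvd_mul hg (k := 2) (by norm_num)) hz
  have n3 := th_ne (not_dvd_mul hg (k := 3) (by norm_num)) hz
  have n4 := th_ne (not_dvd_mul hg (k := 4) (by norm_num)) hz
  have n5 := th_ne (not_dvd_mul hg (k := 5) (by norm_num)) hz
  have n6 := th_ne (not_dvd_mul hg (k := 6) (by norm_num)) hz
  have n7 := th_ne (not_dvd_mul hg (k := 7) (by norm_num)) hz
  have n8 := th_ne (not_dvd_mul hg (k := 8) (by norm_num)) hz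
  have e1 : 4 * (3 * g) = -(5 * g) + 17 * g := by ring
  have e2 : 6 * (3 * g) = g + 17 * g := by ring
  have e3 : 7 * (3 * g) = 4 * g + 17 * g := by ring
  have e4 : 9 * g = -(8 * g) + 17 * g := by ring
  have e5 : 4 * (9 * g) = 2 * g + 17 * (2 * g) := by ring
  have e6 : 6 * (9 * g) = 3 * g + 17 * (3 * g) := by ring
  have e7 : 7 * (9 * g) = -(5 * g) + 17 * (4 * g) := by ring
  have e8 : 27 * g = -(7 * g) + 17 * (2 * g) := by ring
  have e9 : 4 * (27 * g) = 6 * g + 17 * (6 * g) := by ring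
  have e10 : 6 * (27 * g) = -(8 * g) + 17 * (10 * g) := by ring
  have e11 : 7 * (27 * g) = 2 * g + 17 * (11 * g) := by ring
  rw [e5, e6, e7, e9, e10, e11, e4, e8, e1, e2, e3]
  simp only [th_add_mul, th_neg]
  field_simp

lemma al_diff {g : ℤ} (hg : ¬ (17 : ℤ) ∣ g) {z : ℂ} (hz : 0 < z.im) :
    DifferentiableAt ℂ (al g) z := by
  have hth : ∀ k : ℤ, DifferentiableAt ℂ (th k) z := by
    intro k
    have h1 : DifferentiableAt ℂ (fun p : ℂ × ℂ => jacobiTheta₂ p.1 p.2)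
        (((k / 17 - 1 / 2) * (17 * z) + 0 + 1 / 2 : ℂ), (17 * z : ℂ)) :=
      (hasFDerivAt_jacobiTheta₂ _ (im17 hz)).differentiableAt
    have h2 : DifferentiableAt ℂ (fun z : ℂ =>
        ((((k / 17 - 1 / 2) * (17 * z) + 0 + 1 / 2 : ℂ), (17 * z : ℂ)) : ℂ × ℂ)) z := by
      fun_prop
    have h3 := DifferentiableAt.comp z (g := fun p : ℂ × ℂ => jacobiTheta₂ p.1 p.2)
      (f := fun z : ℂ => ((((k / 17 - 1 / 2) * (17 * z) + 0 + 1 / 2 : ℂ), (17 * z : ℂ)) : ℂ × ℂ))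
      h1 h2
    have h4 : DifferentiableAt ℂ (fun z : ℂ => (-1 : ℂ) ^ k *
        (exp (Real.pi * I * ((k / 17 - 1 / 2) ^ 2 * (17 * z) + 0 * (k / 17 - 1))) *
        ((fun p : ℂ × ℂ => jacobiTheta₂ p.1 p.2) ∘ (fun z : ℂ =>
          ((((k / 17 - 1 / 2) * (17 * z) + 0 + 1 / 2 : ℂ), (17 * z : ℂ)) : ℂ × ℂ))) z)) z := by
      refine DifferentiableAt.const_mul (DifferentiableAt.mul ?_ h3) _
      fun_prop
    exact h4
  unfold al
  exact ((hth _).mul (hth _)).div ((hth _).mul (hth _))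
    (mul_ne_zero (th_ne (not_dvd_mul hg (by norm_num)) hz) (th_ne (not_dvd_mul hg (by norm_num)) hz))

end Pool.Agent.N809.M17
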