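import Pool.Agent.W97.TW.Eleven
import Pool.Agent.N809.M17.JTP

/-!
Theta functions with characteristics and the action of the modular group.
-/

set_option autoImplicit false

open UpperHalfPlane hiding I
open MatrixGroups CongruenceSubgroup Filter Topology
open scoped ModularForm Pointwise

namespace Pool.Agent.N809.M17

open Complex (exp I)
open Pool.Agent.W97.TW

/-- the theta function with the characteristic `(a, b)`, normalized -/
noncomputable def Ph (a b τ : ℂ) : ℂ :=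
  exp (Real.pi * I * ((a - 1 / 2) ^ 2 * τ + b * (a - 1))) *
    jacobiTheta₂ ((a - 1 / 2) * τ + b + 1 / 2) τ

lemma th2_add_int (z τ : ℂ) (m : ℤ) : jacobiTheta₂ (z + m) τ = jacobiTheta₂ z τ := by
  induction m using Int.induction_on with
  | zero => simp
  | succ n ih =>
    rw [← ih, ← jacobiTheta₂_add_left (z + ((n : ℤ) : ℂ))]
    congr 1
    push_cast
    ring
  | pred n ih =>
    rw [← ih, ← jacobiTheta₂_add_left (z + ((-(n : ℤ) - 1 : ℤ) : ℂ))]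
    congr 1
    push_cast
    ring

lemma th2_T (z τ : ℂ) : jacobiTheta₂ z (τ + 1) = jacobiTheta₂ (z + 1 / 2) τ := by
  unfold jacobiTheta₂
  refine tsum_congr fun n => ?_
  unfold jacobiTheta₂_term
  have h1 : Even (n * (n - 1)) := Int.even_mul_pred_self n
  obtain ⟨k, hk⟩ := h1
  have hk' : (n : ℂ) * (n - 1) = k + k := by exact_mod_cast hk
  have e : 2 * (Real.pi : ℂ) * I * n * z + Real.pi * I * n ^ 2 * (τ + 1) =
      (2 * Real.pi * I * n * (z + 1 / 2) + Real.pi * I * n ^ 2 * τ) + k * (2 * Real.pi * I) := by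
    linear_combination (Real.pi : ℂ) * I * hk'
  rw [e, Complex.exp_add, Complex.exp_int_mul_two_pi_mul_I, mul_one]

lemma Ph_T (a b τ : ℂ) : Ph a b (τ + 1) = exp (Real.pi * I / 4) * Ph a (a + b) τ := by
  unfold Ph
  rw [th2_T]
  have e1 : (a - 1 / 2) * (τ + 1) + b + 1 / 2 + 1 / 2 = (a - 1 / 2) * τ + (a + b) + 1 / 2 := by ring
  rw [e1, ← mul_assoc, ← Complex.exp_add]
  congr 2
  ring

lemma I_mul_exp (x : ℂ) : I * exp x = exp (Real.pi / 2 * I + x) := by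
  rw [Complex.exp_add, Complex.exp_pi_div_two_mul_I]

lemma neg_exp (x : ℂ) : -exp x = exp (x - Real.pi * I) := by
  rw [Complex.exp_sub, Complex.exp_pi_mul_I]
  ring

lemma Ph_S (a b : ℂ) {τ : ℂ} (hτ : τ ≠ 0) :
    Ph b (-a) τ = I * (1 / (-I * τ) ^ (1 / 2 : ℂ)) * Ph a b (-1 / τ) := by
  unfold Ph
  rw [jacobiTheta₂_functional_equation ((b - 1 / 2) * τ + -a + 1 / 2) τ]
  have e1 : ((b - 1 / 2) * τ + -a + 1 / 2) / τ = (b - 1 / 2) - (a - 1 / 2) / τ := by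
    field_simp
    ring
  have e2 : (a - 1 / 2) * (-1 / τ) + b + 1 / 2 = (b - 1 / 2) - (a - 1 / 2) / τ + 1 := by
    ring
  rw [e1, e2, jacobiTheta₂_add_left]
  have e3 : exp (Real.pi * I * ((b - 1 / 2) ^ 2 * τ + -a * (b - 1))) *
      exp (-Real.pi * I * ((b - 1 / 2) * τ + -a + 1 / 2) ^ 2 / τ) =
      I * exp (Real.pi * I * ((a - 1 / 2) ^ 2 * (-1 / τ) + b * (a - 1))) := by
    rw [I_mul_exp, ← Complex.exp_add]
    congr 1
    field_simp
    ring
  linear_combination (1 / (-I * τ) ^ (1 / 2 : ℂ)) *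
    jacobiTheta₂ (b - 1 / 2 - (a - 1 / 2) / τ) (-1 / τ) * e3

lemma Ph_add_int (a b τ : ℂ) (m : ℤ) :
    Ph a (b + m) τ = exp (Real.pi * I * (m * (a - 1))) * Ph a b τ := by
  unfold Ph
  have e1 : (a - 1 / 2) * τ + (b + m) + 1 / 2 = ((a - 1 / 2) * τ + b + 1 / 2) + m := by ring
  rw [e1, th2_add_int, ← mul_assoc, ← Complex.exp_add]
  congr 2
  ring

lemma Ph_add_one (a b τ : ℂ) : Ph (a + 1) b τ = -exp (-(Real.pi * I * b)) * Ph a b τ := by
  unfold Ph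
  have e1 : (a + 1 - 1 / 2) * τ + b + 1 / 2 = ((a - 1 / 2) * τ + b + 1 / 2) + τ := by ring
  rw [e1, jacobiTheta₂_add_left', ← mul_assoc, ← Complex.exp_add, neg_exp, ← mul_assoc,
    ← Complex.exp_add]
  congr 2
  ring

lemma Ph_neg (a b τ : ℂ) : Ph (-a) (-b) τ = -Ph a b τ := by
  unfold Ph
  have e1 : (-a - 1 / 2) * τ + -b + 1 / 2 = -(((a - 1 / 2) * τ + b + 1 / 2) + τ + ((-1 : ℤ) : ℂ)) := by
    push_cast
    ring
  rw [e1, jacobiTheta₂_neg_left, th2_add_int, jacobiTheta₂_add_left', ← mul_assoc,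
    ← Complex.exp_add, ← neg_mul, neg_exp]
  congr 2
  ring

/-- the transformation property -/
def PT (γ : SL(2, ℤ)) : Prop := ∃ J : ℍ → ℂ, (∀ τ, J τ ≠ 0) ∧ ∀ (u v : ℂ) (τ : ℍ),
  Ph u v ((γ • τ : ℍ) : ℂ) = J τ * Ph (u * γ 0 0 + v * γ 1 0) (u * γ 0 1 + v * γ 1 1) τ

lemma PT_mul {γ δ : SL(2, ℤ)} (h1 : PT γ) (h2 : PT δ) : PT (γ * δ) := by
  obtain ⟨J, hJ, h⟩ := h1
  obtain ⟨K, hK, k⟩ := h2
  refine ⟨fun τ => J (δ • τ) * K τ, fun τ => mul_ne_zero (hJ _) (hK _), fun u v τ => ?_⟩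
  rw [mul_smul, h, k]
  simp only [Matrix.SpecialLinearGroup.coe_mul, Matrix.mul_apply, Fin.sum_univ_two]
  push_cast
  rw [mul_assoc]
  congr 3 <;> ring

lemma PT_inv {γ : SL(2, ℤ)} (h1 : PT γ) : PT γ⁻¹ := by
  obtain ⟨J, hJ, h⟩ := h1
  refine ⟨fun τ => (J (γ⁻¹ • τ))⁻¹, fun τ => inv_ne_zero (hJ _), fun u v τ => ?_⟩
  have h3 := h (u * γ⁻¹ 0 0 + v * γ⁻¹ 1 0) (u * γ⁻¹ 0 1 + v * γ⁻¹ 1 1) (γ⁻¹ • τ)
  rw [smul_inv_smul] at h3
  have hd : γ 0 0 * γ 1 1 - γ 0 1 * γ 1 0 = 1 := by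
    have := γ.det_coe
    rw [Matrix.det_fin_two] at this
    exact this
  have hd' : (γ 0 0 : ℂ) * γ 1 1 - γ 0 1 * γ 1 0 = 1 := by exact_mod_cast hd
  rw [h3]
  have e : ∀ x : ℂ, (J (γ⁻¹ • τ))⁻¹ * (J (γ⁻¹ • τ) * x) = x := fun x => by
    rw [← mul_assoc, inv_mul_cancel₀ (hJ _), one_mul]
  rw [e]
  rw [Matrix.SpecialLinearGroup.SL2_inv_expl]
  simp only [Matrix.cons_val', Matrix.cons_val_zero, Matrix.cons_val_one, Matrix.cons_val_fin_one]
  push_cast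
  congr 1
  · linear_combination (-u) * hd'
  · linear_combination (-v) * hd'

lemma PT_S : PT ModularGroup.S := by
  refine ⟨fun τ => (I * (1 / (-I * (τ : ℂ)) ^ (1 / 2 : ℂ)))⁻¹, fun τ => ?_, fun u v τ => ?_⟩
  · refine inv_ne_zero (mul_ne_zero Complex.I_ne_zero ?_)
    refine one_div_ne_zero ?_
    rw [Complex.cpow_def_of_ne_zero (mul_ne_zero (neg_ne_zero.2 Complex.I_ne_zero) (ne_zero τ))]
    exact Complex.exp_ne_zero _
  · have h1 := Ph_S u v (τ := (τ : ℂ)) (ne_zero τ)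
    have h2 : (I * (1 / (-I * (τ : ℂ)) ^ (1 / 2 : ℂ))) ≠ 0 := by
      refine mul_ne_zero Complex.I_ne_zero ?_
      refine one_div_ne_zero ?_
      rw [Complex.cpow_def_of_ne_zero (mul_ne_zero (neg_ne_zero.2 Complex.I_ne_zero) (ne_zero τ))]
      exact Complex.exp_ne_zero _
    have e0 : (((ModularGroup.S • τ : ℍ)) : ℂ) = -1 / (τ : ℂ) := by
      rw [modular_S_smul]
      change (-(τ : ℂ))⁻¹ = _
      rw [inv_neg, neg_div, one_div]
    rw [e0]
    have e1 : u * ((ModularGroup.S 0 0 : ℤ) : ℂ) + v * ((ModularGroup.S 1 0 : ℤ) : ℂ) = v := by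
      simp [ModularGroup.S]
    have e2 : u * ((ModularGroup.S 0 1 : ℤ) : ℂ) + v * ((ModularGroup.S 1 1 : ℤ) : ℂ) = -u := by
      simp [ModularGroup.S]
    rw [e1, e2, h1, ← mul_assoc, inv_mul_cancel₀ h2, one_mul]

lemma PT_T : PT ModularGroup.T := by
  refine ⟨fun τ => exp (Real.pi * I / 4), fun τ => Complex.exp_ne_zero _, fun u v τ => ?_⟩
  have e0 : (((ModularGroup.T • τ : ℍ)) : ℂ) = (τ : ℂ) + 1 := by
    rw [modular_T_smul, coe_vadd]
    push_cast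
    ring
  have e1 : u * ((ModularGroup.T 0 0 : ℤ) : ℂ) + v * ((ModularGroup.T 1 0 : ℤ) : ℂ) = u := by
    simp [ModularGroup.T]
  have e2 : u * ((ModularGroup.T 0 1 : ℤ) : ℂ) + v * ((ModularGroup.T 1 1 : ℤ) : ℂ) = u + v := by
    simp [ModularGroup.T]
  rw [e0, e1, e2, Ph_T]

theorem PT_all (γ : SL(2, ℤ)) : PT γ := by
  have h : γ ∈ Subgroup.closure {ModularGroup.S, ModularGroup.T} := by
    rw [SpecialLinearGroup.SL2Z_generators]
    trivial
  induction h using Subgroup.closure_induction with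
  | mem x hx =>
    rcases hx with rfl | hx
    · exact PT_S
    · rw [Set.mem_singleton_iff.1 hx]
      exact PT_T
  | one => exact ⟨fun _ => 1, fun _ => one_ne_zero, fun u v τ => by simp⟩
  | mul x y _ _ hx hy => exact PT_mul hx hy
  | inv x _ hx => exact PT_inv hx

/-- the transformation under the modular group -/
theorem Ph_moebius {a b c d : ℤ} (h : a * d - b * c = 1) : ∃ J : ℂ → ℂ,
    (∀ z : ℂ, 0 < z.im → J z ≠ 0) ∧ ∀ (u v z : ℂ), 0 < z.im →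
      Ph u v ((a * z + b) / (c * z + d)) = J z * Ph (u * a + v * c) (u * b + v * d) z := by
  obtain ⟨J, hJ, hP⟩ := PT_all (mkSL a b c d h)
  refine ⟨fun z => if hz : 0 < z.im then J ⟨z, hz⟩ else 1, fun z hz => ?_, fun u v z hz => ?_⟩
  · dsimp only
    rw [dif_pos hz]
    exact hJ _
  · dsimp only
    rw [dif_pos hz]
    have h1 := hP u v ⟨z, hz⟩
    rw [mkSL_smul] at h1
    exact h1

end Pool.Agent.N809.M17
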